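import Pool.Agent.Lib.MP_79d702_lc.Avg.Cov

/-!
The abstract correlation bound.
-/

namespace Pool.Agent.Lib.MP_79d702_lc.Avg

open Finset Pool.Agent.Lib.MP_79d702_lc.Neg

variable {ι : Type}

theorem pair_bound {α : Type} [DecidableEq α] [DecidableEq ι] {w k : ℕ} {Q : ℝ} (hQ : 0 < Q)
    {I : Finset ι} {S : ι → Finset α} (hS : PosSp w Q I S) (hk : ∀ y ∈ I, (S y).card = k)
    (hI : (I.card : ℝ) ≤ Q ^ (2 * w)) (hkQ : 2 * (k : ℝ) ≤ Q) :
    ∑ y ∈ I, ∑ z ∈ I.erase y, (1 / 2 : ℝ) ^ (S y ∪ S z).card ≤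
      2 * (I.card * (1 / 2) ^ k) ^ 2 := by
  have hsmall : ∀ y ∈ I, ∀ z ∈ I.erase y, (S y ∩ S z).card ≤ 2 * w := by
    intro y hy z hz
    by_contra h
    obtain ⟨T, hT, hTc⟩ := exists_subset_card_eq (not_le.mp h).le
    have h1 := hS T hTc.le
    rw [← add_sum_erase _ _ hy, ind_pos (hT.trans inter_subset_left), hTc] at h1
    have h2 := single_le_sum (f := fun i => ind (T ⊆ S i)) (fun _ _ => ind_nonneg _) hz
    rw [ind_pos (hT.trans inter_subset_right)] at h2
    have h3 : 0 < Q ^ (2 * w) := by positivity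
    nlinarith
  have e1 : ∀ y ∈ I, ∑ z ∈ I.erase y, (1 / 2 : ℝ) ^ (S y ∪ S z).card ≤
      2 * I.card * ((1 / 2) ^ k) ^ 2 := by
    intro y hy
    have h1 : ∀ z ∈ I.erase y, (1 / 2 : ℝ) ^ (S y ∪ S z).card ≤ ((1 / 2) ^ k) ^ 2 *
        ∑ T ∈ (S y).powerset, ind (T.card ≤ 2 * w) * ind (T ⊆ S z) := by
      intro z hz
      have h2 : (1 / 2 : ℝ) ^ (S y ∪ S z).card = ((1 / 2) ^ k) ^ 2 * 2 ^ (S y ∩ S z).card := by
        have h3 := card_union_add_card_inter (S y) (S z)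
        rw [hk y hy, hk z (mem_of_mem_erase hz)] at h3
        rw [sq, ← pow_add, ← h3, pow_add, mul_assoc, ← mul_pow]
        norm_num
      rw [h2]
      refine mul_le_mul_of_nonneg_left ?_ (by positivity)
      calc (2 : ℝ) ^ (S y ∩ S z).card =
            ∑ T ∈ (S y ∩ S z).powerset, ind (T.card ≤ 2 * w) * ind (T ⊆ S z) := by
            rw [sum_congr rfl (g := fun _ => 1) fun T hT => ?_]
            · rw [sum_const, card_powerset, nsmul_eq_mul, mul_one]; push_cast; rfl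
            · have h4 := mem_powerset.mp hT
              rw [ind_pos ((card_le_card h4).trans (hsmall y hy z hz)),
                ind_pos (h4.trans inter_subset_right), one_mul]
        _ ≤ _ := sum_le_sum_of_subset_of_nonneg (powerset_mono.mpr inter_subset_left)
            fun _ _ _ => mul_nonneg (ind_nonneg _) (ind_nonneg _)
    refine (sum_le_sum h1).trans ?_
    rw [← mul_sum, sum_comm, mul_comm]
    refine mul_le_mul_of_nonneg_right ?_ (by positivity)
    have h2 : ∀ T ∈ (S y).powerset, ∑ z ∈ I.erase y, ind (T.card ≤ 2 * w) * ind (T ⊆ S z) ≤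
        I.card * (1 / Q) ^ T.card := by
      intro T _
      rw [← mul_sum]
      by_cases h : T.card ≤ 2 * w
      · rw [ind_pos h, one_mul, one_div, inv_pow, ← div_eq_mul_inv, le_div_iff₀ (by positivity)]
        exact le_trans (mul_le_mul_of_nonneg_right (sum_le_sum_of_subset_of_nonneg
          (erase_subset _ _) fun _ _ _ => ind_nonneg _) (by positivity)) (hS T h)
      · rw [ind_neg h, zero_mul]; positivity
    refine (sum_le_sum h2).trans ?_
    rw [← mul_sum, sum_powerset_pow, hk y hy, mul_comm 2]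
    refine mul_le_mul_of_nonneg_left ?_ (Nat.cast_nonneg _)
    have h3 : (k : ℝ) * (1 / Q) ≤ 1 / 2 := by
      rw [mul_one_div, div_le_iff₀ hQ]; linarith
    have := pow_le_lin (x := 1 / Q) (by positivity) k h3
    linarith
  refine (sum_le_sum e1).trans_eq ?_
  rw [sum_const, nsmul_eq_mul]; ring

/-- characteristic vector -/
def vf {n : ℕ} (V : Finset (Fin n)) : Fin n → Bool := fun i => decide (i ∈ V)

theorem vf_mono {n : ℕ} {U V : Finset (Fin n)} (h : U ⊆ V) (i : Fin n) :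
    vf U i = true → vf V i = true := by
  simp only [vf, decide_eq_true_eq]; exact fun hi => h hi

theorem block_dom {n w : ℕ} {Q : ℝ} (hw : 1 ≤ w) (hQ : 10240 * (w : ℝ) ≤ Q) {I : Finset ι}
    {S : ι → Finset (Fin n)} (hS : PosSp w Q I S) {B : Finset (Fin n)} (hSB : ∀ y ∈ I, S y ⊆ B)
    (gs : List (Gate n)) (hgs : gs.countP Gate.isNot = 0) (p : ℕ) (V : Finset (Fin n)) :
    ∑ y ∈ I, ind (¬ node gs p (vf V) = true ∧ node gs p (vf (V ∪ S y)) = true) ≤
      I.card * (2 * (Ex (den w Q) (fun h => ind (node gs p (vf (V ∪ (h ∩ B))) = true)) -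
        ind (node gs p (vf V) = true)) + 3 * (gs.countP Gate.isAndOr * (1 / 2) ^ w)) := by
  by_cases hV : node gs p (vf V) = true
  · rw [sum_eq_zero fun y _ => ind_neg fun h => h.1 hV]
    have : ∀ h : Finset (Fin n), ind (node gs p (vf (V ∪ (h ∩ B))) = true) = 1 := fun h =>
      ind_pos (node_mono gs hgs (vf_mono subset_union_left) p hV)
    simp only [this]
    rw [Ex_const, ind_pos hV]
    simp only [sub_self, mul_zero, zero_add]
    positivity
  · rw [ind_neg hV, sub_zero]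
    refine le_trans (sum_le_sum fun y hy => ind_mono fun h => ?_)
      (keyP hw hQ hS (fun h => vf (V ∪ (h ∩ B))) (fun i => ?_) gs hgs p)
    · rw [inter_eq_left.mpr (hSB y hy)]; exact h.2
    · by_cases h1 : i ∈ V
      · exact Or.inr ⟨true, fun U => by simp [vf, h1]⟩
      · by_cases h2 : i ∈ B
        · exact Or.inl ⟨i, fun U => by simp [vf, h1, h2]⟩
        · exact Or.inr ⟨false, fun U => by simp [vf, h1, h2]⟩

theorem abstract_avg [DecidableEq ι] {n w : ℕ} {Q σ η : ℝ} (hw : 1 ≤ w)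
    (hQ : 10240 * (w : ℝ) ≤ Q) (I : Finset ι) (S : ℕ → ι → Finset (Fin n))
    (B : ℕ → Finset (Fin n)) (M k N : ℕ) (hkQ : 2 * (k : ℝ) ≤ Q)
    (hB : ∀ i < M, ∀ j < M, i ≠ j → Disjoint (B i) (B j)) (hN : ∀ i < M, (B i).card ≤ N)
    (hS : ∀ i < M, ∀ y ∈ I, S i y ⊆ B i ∧ (S i y).card = k)
    (hsp : ∀ i < M, PosSp w Q I (S i)) (hI : (I.card : ℝ) ≤ Q ^ (2 * w))
    (hlam : (I.card : ℝ) * (1 / 2) ^ k ≤ 1)
    (hb1 : (1 - (I.card : ℝ) * (1 / 2) ^ k) ^ M ≤ 1 / 2)
    (hb2 : 1 / 2 - η ≤ (1 - (I.card : ℝ) * (1 / 2) ^ k) ^ M)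
    (hσ : 0 < σ) (hv : M * ((1 + den w Q ^ 2) ^ N - 1) ≤ σ ^ 2) (C : Circuit n) :
    Ex (1 / 2) (fun V => ind (C.eval (vf V) = true ↔ ∃ i < M, ∃ y ∈ I, S i y ⊆ V)) ≤
      1 / 2 + η + M * (2 * (I.card * (1 / 2) ^ k) ^ 2) +
        2 ^ (C.nots + 2) * (I.card * (1 / 2) ^ k) * (2 * σ + M * (3 * (C.size * (1 / 2) ^ w))) := by
  have hQ0 := Q_pos hw hQ
  set lam : ℝ := I.card * (1 / 2) ^ k with hl
  have hl0 : 0 ≤ lam := by positivity
  have hrec := recursion I S B M k (2 * lam ^ 2) (by positivity) (fun V => C.eval (vf V) = true)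
    hB hS hlam (fun i hi => pair_bound hQ0 (hsp i hi) (fun y hy => (hS i hi y hy).2) hI hkQ) M le_rfl
  rw [← hl, sum_add_distrib, sum_const, card_range, nsmul_eq_mul, ← mul_sum] at hrec
  obtain ⟨G, g1, g2, g3⟩ := amano_maruoka C le_rfl
  have e1 : ∀ g ∈ G, ∑ i ∈ range M, ∑ y ∈ I, Ex (1 / 2) (fun V =>
      ind (¬ node g.1 g.2 (vf V) = true ∧ node g.1 g.2 (vf (V ∪ S i y)) = true)) ≤
      I.card * (2 * σ + M * (3 * (C.size * (1 / 2) ^ w))) := by
    intro g hg
    have h1 := gap_sum hσ M N B hB hN hv (fun V => ind (node g.1 g.2 (vf V) = true))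
      (fun _ => ind_nonneg _) (fun _ => ind_le_one _)
    have h2 : ∀ i ∈ range M, ∑ y ∈ I, Ex (1 / 2) (fun V =>
        ind (¬ node g.1 g.2 (vf V) = true ∧ node g.1 g.2 (vf (V ∪ S i y)) = true)) ≤
        I.card * (2 * (Ex (1 / 2) (fun V => Ex (den w Q)
          (fun h => ind (node g.1 g.2 (vf (V ∪ (h ∩ B i))) = true))) -
          Ex (1 / 2) (fun V => ind (node g.1 g.2 (vf V) = true))) +
          3 * (C.size * (1 / 2) ^ w)) := by
      intro i hi
      have hi := mem_range.mp hi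
      rw [← Ex_sum]
      refine (Ex_mono (by norm_num) (by norm_num) fun V => block_dom hw hQ (hsp i hi)
        (fun y hy => (hS i hi y hy).1) g.1 (g2 g hg).1 g.2 V).trans ?_
      rw [Ex_mul, Ex_add, Ex_mul, Ex_sub, Ex_const]
      have : (g.1.countP Gate.isAndOr : ℝ) ≤ C.size := Nat.cast_le.mpr (g2 g hg).2
      gcongr
    refine (sum_le_sum h2).trans ?_
    rw [← mul_sum, sum_add_distrib, ← mul_sum, sum_const, card_range, nsmul_eq_mul]
    gcongr
  have e2 : ∑ i ∈ range M, ∑ y ∈ I, Ex (1 / 2) (fun V =>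
      ind (¬ C.eval (vf V) = true ∧ C.eval (vf (V ∪ S i y)) = true)) ≤
      2 ^ (C.nots + 1) * (I.card * (2 * σ + M * (3 * (C.size * (1 / 2) ^ w)))) := by
    calc _ ≤ ∑ i ∈ range M, ∑ y ∈ I, ∑ g ∈ G, Ex (1 / 2) (fun V =>
          ind (¬ node g.1 g.2 (vf V) = true ∧ node g.1 g.2 (vf (V ∪ S i y)) = true)) := by
          refine sum_le_sum fun i _ => sum_le_sum fun y _ => ?_
          rw [← Ex_sum]
          exact Ex_mono (by norm_num) (by norm_num) fun V => le_trans (ind_mono fun h =>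
            g3 _ _ (vf_mono subset_union_left) h.1 h.2) (ind_exists_le G _)
      _ = ∑ g ∈ G, ∑ i ∈ range M, ∑ y ∈ I, Ex (1 / 2) (fun V =>
          ind (¬ node g.1 g.2 (vf V) = true ∧ node g.1 g.2 (vf (V ∪ S i y)) = true)) := by
          rw [sum_comm (s := G)]
          exact sum_congr rfl fun i _ => sum_comm
      _ ≤ _ := by
          refine (sum_le_card_nsmul G _ _ e1).trans ?_
          rw [nsmul_eq_mul]
          refine mul_le_mul_of_nonneg_right ?_ (by positivity)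
          exact_mod_cast g1
  have e3 : Ex (1 / 2) (fun V => ind (C.eval (vf V) = true ↔ ∃ i < M, ∃ y ∈ I, S i y ⊆ V)) =
      Ex (1 / 2) (fun V => ind (C.eval (vf V) = true)) + Ex (1 / 2) (fun V =>
        (1 - 2 * ind (C.eval (vf V) = true)) * ind (¬ ∃ i < M, ∃ y ∈ I, S i y ⊆ V)) := by
    rw [← Ex_add]
    congr 1; ext V
    by_cases h1 : C.eval (vf V) = true <;> by_cases h2 : ∃ i < M, ∃ y ∈ I, S i y ⊆ V
    · rw [ind_pos (iff_of_true h1 h2), ind_pos h1, ind_neg (not_not.mpr h2)]; ring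
    · rw [ind_neg (fun h => h2 (h.mp h1)), ind_pos h1, ind_pos h2]; ring
    · rw [ind_neg (fun h => h1 (h.mpr h2)), ind_neg h1, ind_neg (not_not.mpr h2)]; ring
    · rw [ind_pos (iff_of_false h1 h2), ind_neg h1, ind_pos h2]; ring
  have e4 : Ex (1 / 2) (fun V : Finset (Fin n) => ind (C.eval (vf V) = true)) ≤ 1 :=
    Ex_le (by norm_num) (by norm_num) fun _ => ind_le_one _
  have e5 := mul_le_mul_of_nonneg_left e2 (show (0 : ℝ) ≤ 2 * (1 / 2) ^ k by positivity)
  have e6 : 2 * (1 / 2) ^ k * (2 ^ (C.nots + 1) *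
      (I.card * (2 * σ + M * (3 * (C.size * (1 / 2) ^ w))))) =
      2 ^ (C.nots + 2) * lam * (2 * σ + M * (3 * (C.size * (1 / 2) ^ w))) := by
    rw [hl]; ring
  have e7 := mul_le_mul_of_nonneg_right e4 (show 0 ≤ 1 - 2 * (1 - lam) ^ M by linarith)
  rw [e3]
  nlinarith

end Pool.Agent.Lib.MP_79d702_lc.Avg
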