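import Pool.Agent.Lib.MP_79d702_lc.Avg.Dom
import Pool.Agent.Lib.MP_79d702_lc.Neg.Chain

/-!
Sparse noise on disjoint blocks is almost invisible in total; size-biasing.
-/

namespace Pool.Agent.Lib.MP_79d702_lc.Avg

open Finset Pool.Agent.Lib.MP_79d702_lc.Neg

variable {α : Type} [Fintype α] [DecidableEq α] {ι : Type}

theorem sum_prod2 (a b c d : α → ℝ) :
    ∑ A : Finset α, ∑ B : Finset α, ∏ i, (if i ∈ B then (if i ∈ A then a i else b i)
      else (if i ∈ A then c i else d i)) = ∏ i, (a i + c i + (b i + d i)) := by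
  simp only [sum_prod_mem]
  rw [← sum_prod_mem (fun i => a i + c i) (fun i => b i + d i)]
  refine sum_congr rfl fun A _ => prod_congr rfl fun i _ => ?_
  split_ifs <;> rfl

/-- density of the law of `V ∪ (h ∩ B)` -/
noncomputable def rden (p : ℝ) (B V : Finset α) : ℝ :=
  ∏ i, if i ∈ V then (if i ∈ B then 1 + p else 1) else (if i ∈ B then 1 - p else 1)

theorem Ex_prod (q : ℝ) (u v : α → ℝ) :
    Ex q (fun V => ∏ i, if i ∈ V then u i else v i) = ∏ i, (q * u i + (1 - q) * v i) := by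
  unfold Ex mu
  rw [← sum_prod_mem (fun i => q * u i) (fun i => (1 - q) * v i)]
  refine sum_congr rfl fun V _ => ?_
  rw [← prod_mul_distrib]
  refine prod_congr rfl fun i _ => ?_
  split_ifs <;> rfl

theorem noise_mass (p : ℝ) (B N : Finset α) :
    ∑ V : Finset α, ∑ h : Finset α, mu (1 / 2) V * mu p h * ind (V ∪ (h ∩ B) = N) =
      mu (1 / 2) N * rden p B N := by
  have h1 : ∀ V h : Finset α, mu (1 / 2) V * mu p h * ind (V ∪ (h ∩ B) = N) =
      ∏ i, if i ∈ h then (if i ∈ V then 1 / 2 * p * ind (i ∈ N) else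
          1 / 2 * p * ind (i ∈ B ↔ i ∈ N))
        else (if i ∈ V then 1 / 2 * (1 - p) * ind (i ∈ N) else
          1 / 2 * (1 - p) * ind (i ∉ N)) := by
    intro V h
    have : (V ∪ (h ∩ B) = N) ↔ ∀ i, ((i ∈ V ∨ (i ∈ h ∧ i ∈ B)) ↔ i ∈ N) := by
      rw [Finset.ext_iff]
      simp only [mem_union, mem_inter]
    rw [ind_congr this, ind_forall]
    unfold mu
    rw [← prod_mul_distrib, ← prod_mul_distrib]
    refine prod_congr rfl fun i _ => ?_
    by_cases h1 : i ∈ V <;> by_cases h2 : i ∈ h <;> simp [h1, h2] <;> norm_num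
  simp only [h1]
  rw [sum_prod2]
  unfold mu rden
  rw [← prod_mul_distrib]
  refine prod_congr rfl fun i _ => ?_
  by_cases h1 : i ∈ N <;> by_cases h2 : i ∈ B <;>
    simp only [ind, h1, h2, if_true, if_false, not_true, not_false_iff, iff_self, true_iff,
      false_iff] <;> ring

theorem noise_law (p : ℝ) (B : Finset α) (φ : Finset α → ℝ) :
    Ex (1 / 2) (fun V => Ex p (fun h => φ (V ∪ (h ∩ B)))) =
      Ex (1 / 2) (fun V => φ V * rden p B V) := by
  have h1 : ∀ V h : Finset α, mu (1 / 2) V * (mu p h * φ (V ∪ (h ∩ B))) =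
      ∑ N : Finset α, mu (1 / 2) V * mu p h * ind (V ∪ (h ∩ B) = N) * φ N := by
    intro V h
    rw [sum_eq_single (V ∪ (h ∩ B))]
    · rw [ind_pos rfl]; ring
    · intro N _ hN; rw [ind_neg (Ne.symm hN)]; ring
    · simp
  unfold Ex
  simp only [mul_sum, h1]
  calc _ = ∑ V : Finset α, ∑ N : Finset α, ∑ h : Finset α,
        mu (1 / 2) V * mu p h * ind (V ∪ (h ∩ B) = N) * φ N :=
        sum_congr rfl fun V _ => sum_comm
    _ = ∑ N : Finset α, ∑ V : Finset α, ∑ h : Finset α,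
        mu (1 / 2) V * mu p h * ind (V ∪ (h ∩ B) = N) * φ N := sum_comm
    _ = _ := by
        refine sum_congr rfl fun N _ => ?_
        simp only [← sum_mul]
        rw [noise_mass]; ring

theorem rden_mul (p : ℝ) (B B' : Finset α) :
    Ex (1 / 2) (fun V => rden p B V * rden p B' V) = (1 + p ^ 2) ^ (B ∩ B').card := by
  have : ∀ V : Finset α, rden p B V * rden p B' V = ∏ i, if i ∈ V then
      (if i ∈ B then 1 + p else 1) * (if i ∈ B' then 1 + p else 1) else
      (if i ∈ B then 1 - p else 1) * (if i ∈ B' then 1 - p else 1) := by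
    intro V
    unfold rden
    rw [← prod_mul_distrib]
    refine prod_congr rfl fun i _ => ?_
    split_ifs <;> rfl
  simp only [this]
  rw [Ex_prod, ← prod_const, ← Fintype.prod_ite_mem (B ∩ B')]
  refine prod_congr rfl fun i _ => ?_
  by_cases h1 : i ∈ B <;> by_cases h2 : i ∈ B' <;> simp [h1, h2] <;> ring

theorem Ex_rden (p : ℝ) (B : Finset α) : Ex (1 / 2) (fun V => rden p B V) = 1 := by
  have := rden_mul p B ∅
  simpa [rden] using this

theorem gap_sum {p σ : ℝ} (hσ : 0 < σ) (M N : ℕ) (B : ℕ → Finset α)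
    (hB : ∀ i < M, ∀ j < M, i ≠ j → Disjoint (B i) (B j)) (hN : ∀ i < M, (B i).card ≤ N)
    (hv : M * ((1 + p ^ 2) ^ N - 1) ≤ σ ^ 2) (g : Finset α → ℝ) (g0 : ∀ V, 0 ≤ g V)
    (g1 : ∀ V, g V ≤ 1) :
    ∑ i ∈ range M, (Ex (1 / 2) (fun V => Ex p (fun h => g (V ∪ (h ∩ B i)))) - Ex (1 / 2) g) ≤
      σ := by
  let Y : Finset α → ℝ := fun V => ∑ i ∈ range M, (rden p (B i) V - 1)
  have e1 : ∑ i ∈ range M, (Ex (1 / 2) (fun V => Ex p (fun h => g (V ∪ (h ∩ B i)))) -
      Ex (1 / 2) g) = Ex (1 / 2) (fun V => g V * Y V) := by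
    simp only [Y, mul_sum, noise_law]
    rw [Ex_sum]
    refine sum_congr rfl fun i _ => ?_
    rw [← Ex_sub]
    congr 1; ext V; ring
  have e2 : Ex (1 / 2) (fun V => Y V * Y V) ≤ σ ^ 2 := by
    simp only [Y, sum_mul_sum]
    rw [Ex_sum]
    refine le_trans ?_ hv
    rw [← nsmul_eq_mul, ← card_range M, ← sum_const, card_range]
    refine sum_le_sum fun i hi => ?_
    rw [Ex_sum]
    have h1 : ∀ j, Ex (1 / 2) (fun V => (rden p (B i) V - 1) * (rden p (B j) V - 1)) =
        (1 + p ^ 2) ^ (B i ∩ B j).card - 1 := by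
      intro j
      have : (fun V => (rden p (B i) V - 1) * (rden p (B j) V - 1)) = fun V =>
          rden p (B i) V * rden p (B j) V - rden p (B i) V - rden p (B j) V + 1 := by
        ext V; ring
      rw [this, Ex_add, Ex_sub, Ex_sub, rden_mul, Ex_rden, Ex_rden, Ex_const]; ring
    simp only [h1]
    rw [sum_eq_single i]
    · rw [inter_self]
      have := pow_le_pow_right₀ (show (1 : ℝ) ≤ 1 + p ^ 2 by nlinarith [sq_nonneg p])
        (hN i (mem_range.mp hi))
      linarith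
    · intro j hj hji
      rw [disjoint_iff_inter_eq_empty.mp
        (hB i (mem_range.mp hi) j (mem_range.mp hj) (Ne.symm hji))]
      simp
    · exact fun h => absurd hi h
  rw [e1]
  have e3 : Ex (1 / 2) (fun V => g V * Y V) ≤
      Ex (1 / 2) (fun V => 1 / (2 * σ) * (Y V * Y V) + σ / 2) := by
    refine Ex_mono (by norm_num) (by norm_num) fun V => ?_
    have h1 : g V * Y V ≤ |Y V| := by
      calc _ ≤ g V * |Y V| := mul_le_mul_of_nonneg_left (le_abs_self _) (g0 V)
        _ ≤ 1 * |Y V| := mul_le_mul_of_nonneg_right (g1 V) (abs_nonneg _)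
        _ = _ := one_mul _
    have h2 : |Y V| ≤ 1 / (2 * σ) * (Y V * Y V) + σ / 2 := by
      rw [← abs_mul_abs_self]
      have : 1 / (2 * σ) * (|Y V| * |Y V|) + σ / 2 - |Y V| = 1 / (2 * σ) * (|Y V| - σ) ^ 2 := by
        field_simp; ring
      have : 0 ≤ 1 / (2 * σ) * (|Y V| - σ) ^ 2 := by positivity
      linarith
    exact h1.trans h2
  rw [Ex_add, Ex_mul, Ex_const] at e3
  have e4 := mul_le_mul_of_nonneg_left e2 (show 0 ≤ 1 / (2 * σ) by positivity)
  have e5 : 1 / (2 * σ) * σ ^ 2 = σ / 2 := by field_simp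
  linarith

theorem Ex_one (φ : Finset α → ℝ) : Ex 1 φ = φ univ := by
  unfold Ex mu
  rw [sum_eq_single univ]
  · simp
  · intro V _ hV
    obtain ⟨i, hi⟩ : ∃ i, i ∉ V := by
      by_contra h
      exact hV (eq_univ_iff_forall.mpr fun i => by_contra fun hi => h ⟨i, hi⟩)
    rw [prod_eq_zero (mem_univ i) (by simp [hi]), zero_mul]
  · simp

/-- size-biasing -/
theorem plant (S : Finset α) (ψ : Finset α → ℝ) :
    Ex (1 / 2) (fun V => ψ V * ind (S ⊆ V)) =
      (1 / 2) ^ S.card * Ex (1 / 2) (fun V => ψ (V ∪ S)) := by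
  have h := noise_law 1 S ψ
  simp only [Ex_one, univ_inter] at h
  rw [h, ← Ex_mul]
  congr 1; ext V
  have : rden 1 S V = 2 ^ S.card * ind (S ⊆ V) := by
    unfold rden
    rw [ind_congr (p := S ⊆ V) (q := ∀ i, i ∈ S → i ∈ V) Iff.rfl, ind_forall, ← prod_const,
      ← Fintype.prod_ite_mem S, ← prod_mul_distrib]
    refine prod_congr rfl fun i _ => ?_
    by_cases h1 : i ∈ V <;> by_cases h2 : i ∈ S <;> simp [ind, h1, h2]
    norm_num
  rw [this]
  have : (1 / 2 : ℝ) ^ S.card * 2 ^ S.card = 1 := by rw [← mul_pow]; norm_num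
  linear_combination (-(ψ V * ind (S ⊆ V))) * this

theorem sum_sub_ind [DecidableEq ι] (I : Finset ι) (P : ι → Prop) :
    ∑ y ∈ I, ind (P y) - ind (∃ y ∈ I, P y) ≤ ∑ y ∈ I, ∑ z ∈ I.erase y, ind (P y ∧ P z) := by
  have hnn : ∀ y ∈ I, 0 ≤ ∑ z ∈ I.erase y, ind (P y ∧ P z) :=
    fun y _ => sum_nonneg fun _ _ => ind_nonneg _
  by_cases h : ∃ y ∈ I, P y
  · rw [ind_pos h]
    obtain ⟨y, hy, hP⟩ := h
    refine le_trans (le_of_eq ?_) (single_le_sum hnn hy)
    rw [← add_sum_erase _ _ hy, ind_pos hP, add_sub_cancel_left]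
    exact sum_congr rfl fun z _ => ind_congr (and_iff_right hP).symm
  · rw [ind_neg h, sum_eq_zero fun y hy => ind_neg fun hP => h ⟨y, hy, hP⟩, sub_zero]
    exact sum_nonneg hnn

theorem recursion [DecidableEq ι] (I : Finset ι) (S : ℕ → ι → Finset α) (B : ℕ → Finset α)
    (M k : ℕ) (κ : ℝ) (hκ0 : 0 ≤ κ) (φ : Finset α → Prop)
    (hB : ∀ i < M, ∀ j < M, i ≠ j → Disjoint (B i) (B j))
    (hS : ∀ i < M, ∀ y ∈ I, S i y ⊆ B i ∧ (S i y).card = k)
    (hlam : (I.card : ℝ) * (1 / 2) ^ k ≤ 1)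
    (hκ : ∀ i < M, ∑ y ∈ I, ∑ z ∈ I.erase y, (1 / 2 : ℝ) ^ (S i y ∪ S i z).card ≤ κ) (j : ℕ) :
    j ≤ M → Ex (1 / 2) (fun V => (1 - 2 * ind (φ V)) * ind (¬ ∃ i < j, ∃ y ∈ I, S i y ⊆ V)) ≤
      (1 - I.card * (1 / 2) ^ k) ^ j * (1 - 2 * Ex (1 / 2) (fun V => ind (φ V))) +
        ∑ i ∈ range j, (2 * (1 / 2) ^ k *
          ∑ y ∈ I, Ex (1 / 2) (fun V => ind (¬ φ V ∧ φ (V ∪ S i y))) + κ) := by
  induction j with
  | zero =>
    intro _
    have : ∀ V : Finset α, ind (¬ ∃ i < 0, ∃ y ∈ I, S i y ⊆ V) = 1 :=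
      fun V => ind_pos (by simp)
    simp only [this, mul_one, pow_zero, one_mul, range_zero, sum_empty, add_zero]
    rw [Ex_sub, Ex_mul, Ex_const]
  | succ j ih =>
    intro hj
    have ih := ih (by omega)
    have hjM : j < M := hj
    set W : Finset α → ℝ := fun V => ind (¬ ∃ i < j, ∃ y ∈ I, S i y ⊆ V) with hW
    set c : Finset α → ℝ := fun V => 1 - 2 * ind (φ V) with hc
    have e1 : Ex (1 / 2) (fun V => c V * ind (¬ ∃ i < j + 1, ∃ y ∈ I, S i y ⊆ V)) ≤
        Ex (1 / 2) (fun V => c V * W V - ∑ y ∈ I, c V * W V * ind (S j y ⊆ V) +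
          ∑ y ∈ I, ∑ z ∈ I.erase y, ind (S j y ∪ S j z ⊆ V)) := by
      refine Ex_mono (by norm_num) (by norm_num) fun V => ?_
      have h1 : ind (¬ ∃ i < j + 1, ∃ y ∈ I, S i y ⊆ V) =
          W V * (1 - ind (∃ y ∈ I, S j y ⊆ V)) := by
        rw [← ind_not, hW, ← ind_and]
        refine ind_congr ?_
        rw [← not_or, Nat.exists_lt_succ_right]
      have h2 := sum_sub_ind I fun y => S j y ⊆ V
      have h3 := ind_exists_le I fun y => S j y ⊆ V
      have h4 : c V * W V ≤ 1 := by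
        have := ind_nonneg (φ V)
        have h5 : 0 ≤ W V := ind_nonneg _
        have h6 : W V ≤ 1 := ind_le_one _
        simp only [hc]
        nlinarith
      simp only [← union_subset_iff] at h2
      rw [h1, ← mul_sum]
      nlinarith
    have e2 : ∀ y ∈ I, (1 / 2) ^ k * (Ex (1 / 2) (fun V => c V * W V) -
        2 * Ex (1 / 2) (fun V => ind (¬ φ V ∧ φ (V ∪ S j y)))) ≤
        Ex (1 / 2) (fun V => c V * W V * ind (S j y ⊆ V)) := by
      intro y hy
      rw [plant, (hS j hjM y hy).2, ← Ex_mul, ← Ex_sub]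
      refine mul_le_mul_of_nonneg_left (Ex_mono (by norm_num) (by norm_num) fun V => ?_)
        (by positivity)
      have h1 : W (V ∪ S j y) = W V := by
        refine ind_congr (not_congr ⟨?_, ?_⟩)
        · rintro ⟨i, hi, z, hz, h⟩
          refine ⟨i, hi, z, hz, fun x hx => (mem_union.mp (h hx)).resolve_right fun hx' => ?_⟩
          exact disjoint_left.mp (hB i (by omega) j hjM (by omega))
            ((hS i (by omega) z hz).1 hx) ((hS j hjM y hy).1 hx')
        · rintro ⟨i, hi, z, hz, h⟩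
          exact ⟨i, hi, z, hz, h.trans subset_union_left⟩
      rw [h1]
      have h5 : 0 ≤ W V := ind_nonneg _
      have h6 : W V ≤ 1 := ind_le_one _
      simp only [hc]
      by_cases h2 : φ V <;> by_cases h3 : φ (V ∪ S j y) <;> simp [ind, h2, h3] <;> linarith
    have e3 := sum_le_sum e2
    rw [← mul_sum, sum_sub_distrib, sum_const, nsmul_eq_mul, ← mul_sum] at e3
    rw [Ex_add, Ex_sub, Ex_sum, Ex_sum] at e1
    simp only [Ex_sum, Ex_subset] at e1
    have e4 := hκ j hjM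
    have e5 : 0 ≤ ∑ i ∈ range j, (2 * (1 / 2) ^ k *
        ∑ y ∈ I, Ex (1 / 2) (fun V => ind (¬ φ V ∧ φ (V ∪ S i y))) + κ) :=
      sum_nonneg fun i _ => add_nonneg (mul_nonneg (by positivity) (sum_nonneg fun y _ =>
        Ex_nonneg (by norm_num) (by norm_num) fun _ => ind_nonneg _)) hκ0
    have e6 := mul_le_mul_of_nonneg_left ih (sub_nonneg.mpr hlam)
    have e7 : 0 ≤ (I.card : ℝ) * (1 / 2) ^ k := by positivity
    have e8 := mul_nonneg e7 e5
    rw [sum_range_succ, pow_succ]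
    nlinarith

end Pool.Agent.Lib.MP_79d702_lc.Avg
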