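import Pool.Agent.Lib.MP_79d702_lc.Avg.Sparse
import Pool.Agent.Lib.MP_79d702_lc.Neg.Approx

/-!
The approximation method in multiplicative form against sparse noise.
-/

namespace Pool.Agent.Lib.MP_79d702_lc.Avg

open Finset Pool.Agent.Lib.MP_79d702_lc.Neg

variable {α : Type} [Fintype α] [DecidableEq α] {ι : Type}

/-- the positive tests are `Q`-spread up to level `2 w` -/
def PosSp (w : ℕ) (Q : ℝ) (I : Finset ι) (S : ι → Finset α) : Prop :=
  ∀ T : Finset α, T.card ≤ 2 * w → (∑ i ∈ I, ind (T ⊆ S i)) * Q ^ T.card ≤ I.card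

/-- approximators -/
def GoodP (w : ℕ) (Q : ℝ) (D : Finset (Finset α)) : Prop :=
  (∀ T ∈ D, T.card ≤ w) ∧ Links (Q / 4) D

/-- density of the noise -/
noncomputable def den (w : ℕ) (Q : ℝ) : ℝ := nz (10240 * w / Q)

section basic
variable {w : ℕ} {Q : ℝ}

theorem Q_pos (hw : 1 ≤ w) (hQ : 10240 * (w : ℝ) ≤ Q) : 0 < Q := by
  have : (1 : ℝ) ≤ w := by exact_mod_cast hw
  linarith

theorem a_pos (hw : 1 ≤ w) (hQ : 10240 * (w : ℝ) ≤ Q) : 0 < 10240 * w / Q := by
  have : (1 : ℝ) ≤ w := by exact_mod_cast hw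
  have := Q_pos hw hQ
  positivity

theorem a_le (hw : 1 ≤ w) (hQ : 10240 * (w : ℝ) ≤ Q) : 10240 * w / Q ≤ 1 := by
  rw [div_le_one (Q_pos hw hQ)]; exact hQ

theorem den_nonneg (hw : 1 ≤ w) (hQ : 10240 * (w : ℝ) ≤ Q) : 0 ≤ den w Q :=
  nz_nonneg (a_pos hw hQ) (a_le hw hQ)

theorem den_le_one (w : ℕ) (Q : ℝ) : den w Q ≤ 1 := nz_le_one _

theorem den_mul (hw : 1 ≤ w) (hQ : 10240 * (w : ℝ) ≤ Q) : 10240 * (w : ℝ) ≤ den w Q * Q := by
  have h := nz_ge (a_pos hw hQ) (a_le hw hQ)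
  rwa [div_le_iff₀ (Q_pos hw hQ)] at h

theorem den_le (w : ℕ) (Q : ℝ) : den w Q ≤ 20480 * w / Q :=
  (nz_le _).trans_eq (by ring)

theorem pow_le_lin {x : ℝ} (hx : 0 ≤ x) (N : ℕ) (h : N * x ≤ 1 / 2) :
    (1 + x) ^ N ≤ 1 + 2 * (N * x) := by
  have h1 : ∀ m : ℕ, (1 + x) ^ m * (1 - m * x) ≤ 1 := by
    intro m
    induction m with
    | zero => simp
    | succ m ih =>
      have h2 : (1 + x) * (1 - ((m + 1 : ℕ) : ℝ) * x) ≤ 1 - m * x := by
        push_cast
        have : 0 ≤ ((m : ℝ) + 1) * x * x := by positivity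
        nlinarith
      calc _ = (1 + x) ^ m * ((1 + x) * (1 - ((m + 1 : ℕ) : ℝ) * x)) := by ring
        _ ≤ (1 + x) ^ m * (1 - m * x) := mul_le_mul_of_nonneg_left h2 (by positivity)
        _ ≤ 1 := ih
  have h2 := h1 N
  have h3 : 0 ≤ (N : ℝ) * x := by positivity
  have h4 : 0 < 1 - N * x := by linarith
  refine le_of_mul_le_mul_right (h2.trans ?_) h4
  nlinarith

omit [Fintype α] [DecidableEq α] in
theorem sum_powerset_pow (T : Finset α) (x : ℝ) :
    ∑ K ∈ T.powerset, x ^ K.card = (1 + x) ^ T.card := by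
  rw [← prod_const, prod_one_add]
  exact sum_congr rfl fun K _ => (prod_const _).symm

end basic

omit [Fintype α] in
theorem link_sum {Q : ℝ} (hQ : 0 < Q) {D : Finset (Finset α)} (hD : Links (Q / 4) D)
    (K : Finset α) (a : ℕ) (ha : ∀ T ∈ D, K ⊆ T → a ≤ T.card) :
    (∑ T ∈ D, ind (K ⊆ T) * (1 / Q) ^ T.card) * (Q / 4) ^ K.card ≤ 4 / 3 * (1 / 4) ^ a := by
  classical
  have e1 : ∑ T ∈ D, ind (K ⊆ T) * (1 / Q) ^ T.card =
      ∑ T ∈ D.filter (fun T => K ⊆ T), (1 / Q) ^ T.card := by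
    rw [sum_filter]
    refine sum_congr rfl fun T _ => ?_
    split_ifs with h
    · rw [ind_pos h, one_mul]
    · rw [ind_neg h, zero_mul]
  set b := D.sup card + 1 with hb
  have e2 : ∑ T ∈ D.filter (fun T => K ⊆ T), (1 / Q) ^ T.card =
      ∑ l ∈ Ico a (a + b), ∑ T ∈ (D.filter (fun T => K ⊆ T)).filter (fun T => T.card = l),
        (1 / Q) ^ T.card := by
    refine (sum_fiberwise_of_maps_to (fun T hT => ?_) _).symm
    obtain ⟨h1, h2⟩ := mem_filter.mp hT
    have := ha T h1 h2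
    have := le_sup (f := card) h1
    rw [mem_Ico]; omega
  rw [e1, e2, sum_mul]
  refine le_trans (sum_le_sum fun l _ => ?_) ((geo4 a b).trans ?_)
  · rw [sum_congr rfl (g := fun _ => (1 / Q) ^ l) (fun T hT => by rw [(mem_filter.mp hT).2]),
      sum_const, nsmul_eq_mul, filter_comm, mul_right_comm]
    calc _ ≤ (Q / 4) ^ l * (1 / Q) ^ l := mul_le_mul_of_nonneg_right (hD K l) (by positivity)
      _ = _ := by rw [← mul_pow]; congr 1; field_simp
  · have : (0 : ℝ) ≤ (1 / 4) ^ (a + b) := by positivity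
    linarith

omit [Fintype α] [DecidableEq α] in
theorem pos_sum {w : ℕ} {Q : ℝ} (hQ : 0 < Q) {I : Finset ι} {S : ι → Finset α}
    (hS : PosSp w Q I S) (D : Finset (Finset α)) (hD : ∀ T ∈ D, T.card ≤ 2 * w) :
    ∑ i ∈ I, ind (Acc D (S i)) ≤ I.card * ∑ T ∈ D, (1 / Q) ^ T.card := by
  calc ∑ i ∈ I, ind (Acc D (S i)) ≤ ∑ i ∈ I, ∑ T ∈ D, ind (T ⊆ S i) :=
        sum_le_sum fun i _ => ind_exists_le D _
    _ = ∑ T ∈ D, ∑ i ∈ I, ind (T ⊆ S i) := sum_comm
    _ ≤ _ := by
        rw [mul_sum]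
        refine sum_le_sum fun T hT => ?_
        rw [one_div, inv_pow, ← div_eq_mul_inv, le_div_iff₀ (by positivity)]
        exact hS T (hD T hT)

theorem approxP {w : ℕ} {Q : ℝ} (hw : 1 ≤ w) (hQ : 10240 * (w : ℝ) ≤ Q) {I : Finset ι}
    {S : ι → Finset α} (hS : PosSp w Q I S)
    (D : Finset (Finset α)) (hD : ∀ T ∈ D, T.card ≤ 2 * w) :
    ∃ D' : Finset (Finset α), GoodP w Q D' ∧
      Ex (den w Q) (fun N => ind (Acc D' N ∧ ¬ Acc D N)) ≤ (1 / 2) ^ w ∧
      ∑ i ∈ I, ind (Acc D (S i) ∧ ¬ Acc D' (S i)) ≤ I.card * (1 / 2) ^ w := by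
  have hQ0 := Q_pos hw hQ
  have hw' : (1 : ℝ) ≤ w := by exact_mod_cast hw
  obtain ⟨H, h1, h2, h3, h4⟩ := closureP (a_pos hw hQ) (a_le hw hQ) w hw D hD
  rw [show 2560 * (w : ℝ) / (10240 * w / Q) = Q / 4 by field_simp; norm_num] at h4
  refine ⟨H.filter fun T => T.card ≤ w, ⟨fun T hT => (mem_filter.mp hT).2,
    h4.sub (by positivity) (filter_subset _ _)⟩, ?_, ?_⟩
  · exact le_trans (Ex_mono (den_nonneg hw hQ) (den_le_one w Q) fun N =>
      ind_mono fun h => ⟨h.1.sub (filter_subset _ _), h.2⟩) h3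
  · have h5 := pos_sum hQ0 hS (H.filter fun T => w < T.card)
      (fun T hT => h2 T (mem_filter.mp hT).1)
    have h6 := link_sum hQ0 (h4.sub (by positivity) (filter_subset (fun T => w < T.card) _)) ∅
      (w + 1) (fun T hT _ => (mem_filter.mp hT).2)
    simp only [empty_subset, ind_pos trivial, one_mul, card_empty, pow_zero, mul_one] at h6
    refine le_trans (sum_le_sum fun i _ => ind_mono ?_) (h5.trans ?_)
    · rintro ⟨h6, h7⟩
      obtain ⟨T, hT, hTS⟩ := h1 _ h6
      refine ⟨T, mem_filter.mpr ⟨hT, ?_⟩, hTS⟩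
      by_contra h
      exact h7 ⟨T, mem_filter.mpr ⟨hT, not_lt.mp h⟩, hTS⟩
    · refine mul_le_mul_of_nonneg_left (h6.trans ?_) (Nat.cast_nonneg _)
      have : (1 / 4 : ℝ) ^ w ≤ (1 / 2) ^ w := pow_le_pow_left₀ (by norm_num) (by norm_num) _
      have : (0 : ℝ) ≤ (1 / 4) ^ w := by positivity
      rw [pow_succ]
      linarith

omit [Fintype α] in
theorem overlap {w : ℕ} {Q p : ℝ} (hw : 1 ≤ w) (hQ : 0 < Q) (hp : 0 < p)
    (hpQ : 10240 * (w : ℝ) ≤ p * Q) {D : Finset (Finset α)} (hD : GoodP w Q D) (T : Finset α)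
    (hT : T.card ≤ w) :
    ∑ U ∈ D, (1 / Q) ^ U.card * (1 / p) ^ (T ∩ U).card ≤ ∑ U ∈ D, (1 / Q) ^ U.card + 1 := by
  classical
  have hw' : (1 : ℝ) ≤ w := by exact_mod_cast hw
  have e1 : ∑ U ∈ D, (1 / Q) ^ U.card * (1 / p) ^ (T ∩ U).card ≤
      ∑ K ∈ T.powerset, (1 / p) ^ K.card * ∑ U ∈ D, ind (K ⊆ U) * (1 / Q) ^ U.card := by
    simp only [mul_sum]
    rw [sum_comm]
    refine sum_le_sum fun U _ => ?_
    refine le_trans (le_of_eq ?_) (single_le_sum
      (f := fun K : Finset α => (1 / p) ^ K.card * (ind (K ⊆ U) * (1 / Q) ^ U.card))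
      (fun K _ => mul_nonneg (by positivity) (mul_nonneg (ind_nonneg _) (by positivity)))
      (mem_powerset.mpr (inter_subset_left (s₁ := T) (s₂ := U))))
    rw [ind_pos inter_subset_right]; ring
  have e2 : ∀ K : Finset α, (1 / p) ^ K.card * ∑ U ∈ D, ind (K ⊆ U) * (1 / Q) ^ U.card ≤
      4 / 3 * (1 / (p * Q)) ^ K.card := by
    intro K
    have h := link_sum hQ hD.2 K K.card fun U _ h => card_le_card h
    rw [← le_div_iff₀ (by positivity)] at h
    refine (mul_le_mul_of_nonneg_left h (by positivity)).trans_eq ?_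
    rw [mul_div_assoc, ← div_pow, mul_left_comm, ← mul_pow]
    congr 2
    field_simp
  refine e1.trans ?_
  rw [← add_sum_erase _ _ (empty_mem_powerset T)]
  refine add_le_add (le_of_eq (by simp [ind_pos])) ?_
  refine (sum_le_sum fun K _ => e2 K).trans ?_
  rw [← mul_sum]
  have e3 := sum_powerset_pow T (1 / (p * Q))
  rw [← add_sum_erase _ _ (empty_mem_powerset T), card_empty, pow_zero] at e3
  have hx : (T.card : ℝ) * (1 / (p * Q)) ≤ 1 / 4 := by
    have : (T.card : ℝ) ≤ w := by exact_mod_cast hT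
    rw [mul_one_div, div_le_iff₀ (by positivity)]
    linarith
  have e4 := pow_le_lin (x := 1 / (p * Q)) (by positivity) T.card (by linarith)
  linarith

theorem final_stepP {w : ℕ} {Q : ℝ} (hw : 1 ≤ w) (hQ : 10240 * (w : ℝ) ≤ Q) {I : Finset ι}
    {S : ι → Finset α} (hS : PosSp w Q I S) {D : Finset (Finset α)} (hD : GoodP w Q D) :
    ∑ i ∈ I, ind (Acc D (S i)) ≤ I.card * (2 * Ex (den w Q) (fun N => ind (Acc D N))) := by
  have hQ0 := Q_pos hw hQ
  have hw' : (1 : ℝ) ≤ w := by exact_mod_cast hw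
  have hpQ := den_mul hw hQ
  set p := den w Q with hp
  have hp0 : 0 < p := by
    by_contra h
    have := mul_nonpos_of_nonpos_of_nonneg (not_lt.mp h) hQ0.le
    linarith
  have hp1 : p ≤ 1 := den_le_one w Q
  set μ := ∑ T ∈ D, (1 / Q) ^ T.card with hμ
  have hμ0 : 0 ≤ μ := sum_nonneg fun _ _ => by positivity
  let Z : Finset α → ℝ := fun N => ∑ T ∈ D, (1 / (p * Q)) ^ T.card * ind (T ⊆ N)
  have hZ1 : Ex p Z = μ := by
    simp only [Z]
    rw [Ex_sum]
    refine sum_congr rfl fun T _ => ?_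
    rw [Ex_mul, Ex_subset, ← mul_pow]
    congr 1
    field_simp
  have hZ2 : Ex p (fun N => Z N * Z N) ≤ μ * (μ + 1) := by
    simp only [Z, sum_mul_sum]
    rw [Ex_sum, hμ, sum_mul]
    refine sum_le_sum fun T hT => ?_
    refine le_trans (le_of_eq ?_) (mul_le_mul_of_nonneg_left
      (overlap hw hQ0 hp0 hpQ hD T (hD.1 T hT)) (by positivity))
    rw [Ex_sum, mul_sum]
    refine sum_congr rfl fun U _ => ?_
    have : ∀ N : Finset α, (1 / (p * Q)) ^ T.card * ind (T ⊆ N) *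
        ((1 / (p * Q)) ^ U.card * ind (U ⊆ N)) =
        ((1 / (p * Q)) ^ T.card * (1 / (p * Q)) ^ U.card) * ind (T ∪ U ⊆ N) := by
      intro N
      rw [ind_congr union_subset_iff, ind_and]; ring
    simp only [this]
    rw [Ex_mul, Ex_subset]
    have h1 : p ^ (T ∪ U).card = p ^ T.card * p ^ U.card * (1 / p) ^ (T ∩ U).card := by
      rw [← pow_add, ← card_union_add_card_inter, pow_add, mul_assoc, ← mul_pow,
        mul_one_div_cancel hp0.ne', one_pow, mul_one]
    have h2 : ∀ m : ℕ, (1 / (p * Q)) ^ m * p ^ m = (1 / Q) ^ m := by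
      intro m; rw [← mul_pow]; congr 1; field_simp
    rw [h1, ← h2 T.card, ← h2 U.card]; ring
  have h3 : Ex p (fun N => 2 / (μ + 1) * Z N - 1 / (μ + 1) ^ 2 * (Z N * Z N)) ≤
      Ex p (fun N => ind (Acc D N)) := by
    refine Ex_mono hp0.le hp1 fun N => ?_
    by_cases h : Acc D N
    · rw [ind_pos h]
      have := sq_nonneg (1 - 1 / (μ + 1) * Z N)
      have e : 2 / (μ + 1) * Z N - 1 / (μ + 1) ^ 2 * (Z N * Z N) =
        1 - (1 - 1 / (μ + 1) * Z N) ^ 2 := by field_simp; ring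
      linarith
    · have : Z N = 0 := sum_eq_zero fun T hT => by rw [ind_neg fun h' => h ⟨T, hT, h'⟩, mul_zero]
      rw [this, ind_neg h]; simp
  rw [Ex_sub, Ex_mul, Ex_mul, hZ1] at h3
  have h4 : μ / (μ + 1) ≤ Ex p (fun N => ind (Acc D N)) := by
    refine le_trans ?_ h3
    have h5 := mul_le_mul_of_nonneg_left hZ2 (show (0 : ℝ) ≤ 1 / (μ + 1) ^ 2 by positivity)
    have e : 1 / (μ + 1) ^ 2 * (μ * (μ + 1)) = μ / (μ + 1) := by field_simp
    have e' : 2 / (μ + 1) * μ = 2 * (μ / (μ + 1)) := by ring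
    linarith
  rw [div_le_iff₀ (by positivity)] at h4
  have hE : 0 ≤ Ex p (fun N => ind (Acc D N)) := Ex_nonneg hp0.le hp1 fun _ => ind_nonneg _
  rcases le_total μ 1 with h | h
  · refine (pos_sum hQ0 hS D fun T hT => by have := hD.1 T hT; omega).trans
      (mul_le_mul_of_nonneg_left ?_ (Nat.cast_nonneg _))
    nlinarith
  · have h5 : ∑ i ∈ I, ind (Acc D (S i)) ≤ I.card * 1 := by
      rw [← nsmul_eq_mul, ← sum_const]
      exact sum_le_sum fun i _ => ind_le_one _
    refine h5.trans (mul_le_mul_of_nonneg_left ?_ (Nat.cast_nonneg _))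
    nlinarith

omit [Fintype α] in
theorem good_smallP {w : ℕ} {Q : ℝ} (hw : 1 ≤ w) (hQ : 10240 * (w : ℝ) ≤ Q)
    {D : Finset (Finset α)} (h1 : D.card ≤ 1) (h2 : ∀ T ∈ D, T.card ≤ 1) : GoodP w Q D := by
  have hw' : (1 : ℝ) ≤ w := by exact_mod_cast hw
  refine ⟨fun T hT => (h2 T hT).trans hw, fun K l => ?_⟩
  rcases ((D.filter fun T => T.card = l).filter fun T => K ⊆ T).eq_empty_or_nonempty with
    h | ⟨T, hT⟩
  · rw [h, card_empty, Nat.cast_zero, zero_mul]
    exact pow_nonneg (by linarith) _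
  · have h3 : K.card ≤ l := by
      obtain ⟨h4, h5⟩ := mem_filter.mp hT
      rw [← (mem_filter.mp h4).2]; exact card_le_card h5
    have h4 : (((D.filter fun T => T.card = l).filter fun T => K ⊆ T).card : ℝ) ≤ 1 := by
      exact_mod_cast (card_le_card ((filter_subset _ _).trans (filter_subset _ _))).trans h1
    calc _ ≤ 1 * (Q / 4) ^ K.card := mul_le_mul_of_nonneg_right h4 (pow_nonneg (by linarith) _)
      _ ≤ _ := by rw [one_mul]; exact pow_le_pow_right₀ (by linarith) h3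

theorem approx_listP {n w : ℕ} {Q : ℝ} (hw : 1 ≤ w) (hQ : 10240 * (w : ℝ) ≤ Q) {I : Finset ι} {S : ι → Finset α}
    (hS : PosSp w Q I S) (ρ : Finset α → Fin n → Bool)
    (hρ : ∀ i, (∃ a, ∀ V, ρ V i = true ↔ a ∈ V) ∨ ∃ b, ∀ V, ρ V i = b) (gs : List (Gate n))
    (hgs : gs.countP Gate.isNot = 0) :
    ∃ (D : ℕ → Finset (Finset α)) (BN : Finset α → Prop) (BP : ι → Prop), (∀ p, GoodP w Q (D p)) ∧
      Ex (den w Q) (fun N => ind (BN N)) ≤ gs.countP Gate.isAndOr * (1 / 2) ^ w ∧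
      ∑ i ∈ I, ind (BP i) ≤ I.card * (gs.countP Gate.isAndOr * (1 / 2) ^ w) ∧
      (∀ N, ¬ BN N → ∀ p, Acc (D p) N → node gs p (ρ N) = true) ∧
      (∀ i, ¬ BP i → ∀ p, node gs p (ρ (S i)) = true → Acc (D p) (S i)) := by
  induction gs using List.reverseRecOn with
  | nil =>
    refine ⟨fun _ => ∅, fun _ => False, fun _ => False, fun _ => good_smallP hw hQ (by simp) (by simp),
      ?_, ?_, fun N _ p h => by simp [Neg.Acc] at h, fun i _ p h => by simp [node, values] at h⟩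
    · simp [ind_neg, Ex_const]
    · simp [ind_neg]
  | append_singleton gs g ih =>
    rw [List.countP_append] at hgs
    obtain ⟨D, BN, BP, h1, h2, h3, h4, h5⟩ := ih (by omega)
    have exact_case : ∀ E : Finset (Finset α), GoodP w Q E → g.isAndOr = false →
        (∀ V, Acc E V ↔ g.value (ρ V) (values (ρ V) gs) = true) →
        ∃ (D : ℕ → Finset (Finset α)) (BN : Finset α → Prop) (BP : ι → Prop),
          (∀ p, GoodP w Q (D p)) ∧
          Ex (den w Q) (fun N => ind (BN N)) ≤ (gs ++ [g]).countP Gate.isAndOr * (1 / 2) ^ w ∧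
          ∑ i ∈ I, ind (BP i) ≤ I.card * ((gs ++ [g]).countP Gate.isAndOr * (1 / 2) ^ w) ∧
          (∀ N, ¬ BN N → ∀ p, Acc (D p) N → node (gs ++ [g]) p (ρ N) = true) ∧
          (∀ i, ¬ BP i → ∀ p, node (gs ++ [g]) p (ρ (S i)) = true → Acc (D p) (S i)) := by
      intro E hE hg hval
      have hc : (gs ++ [g]).countP Gate.isAndOr = gs.countP Gate.isAndOr := by
        simp [List.countP_append, hg]
      rw [hc]
      refine ⟨fun p => if p = gs.length then E else D p, BN, BP, fun p => ?_, h2, h3,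
        fun N hN p => ?_, fun i hi p => ?_⟩
      · beta_reduce; split_ifs
        · exact hE
        · exact h1 p
      · rw [node_snoc]; beta_reduce; split_ifs
        · exact (hval N).mp
        · exact h4 N hN p
      · rw [node_snoc]; beta_reduce; split_ifs
        · exact (hval _).mpr
        · exact h5 i hi p
    have approx_case : ∀ E : Finset (Finset α), (∀ T ∈ E, T.card ≤ 2 * w) → g.isAndOr = true →
        (∀ N, ¬ BN N → Acc E N → g.value (ρ N) (values (ρ N) gs) = true) →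
        (∀ i, ¬ BP i → g.value (ρ (S i)) (values (ρ (S i)) gs) = true → Acc E (S i)) →
        ∃ (D : ℕ → Finset (Finset α)) (BN : Finset α → Prop) (BP : ι → Prop),
          (∀ p, GoodP w Q (D p)) ∧
          Ex (den w Q) (fun N => ind (BN N)) ≤ (gs ++ [g]).countP Gate.isAndOr * (1 / 2) ^ w ∧
          ∑ i ∈ I, ind (BP i) ≤ I.card * ((gs ++ [g]).countP Gate.isAndOr * (1 / 2) ^ w) ∧
          (∀ N, ¬ BN N → ∀ p, Acc (D p) N → node (gs ++ [g]) p (ρ N) = true) ∧
          (∀ i, ¬ BP i → ∀ p, node (gs ++ [g]) p (ρ (S i)) = true → Acc (D p) (S i)) := by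
      intro E hE hg hv1 hv2
      obtain ⟨E', e1, e2, e3⟩ := approxP hw hQ hS E hE
      have hc : (gs ++ [g]).countP Gate.isAndOr = gs.countP Gate.isAndOr + 1 := by
        simp [List.countP_append, hg]
      rw [hc]
      refine ⟨fun p => if p = gs.length then E' else D p,
        fun N => BN N ∨ (Acc E' N ∧ ¬ Acc E N), fun i => BP i ∨ (Acc E (S i) ∧ ¬ Acc E' (S i)),
        fun p => ?_, ?_, ?_, fun N hN p => ?_, fun i hi p => ?_⟩
      · beta_reduce; split_ifs
        · exact e1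
        · exact h1 p
      · refine le_trans (Ex_mono (den_nonneg hw hQ) (den_le_one w Q) fun N => ind_or_le _ _) ?_
        rw [Ex_add]; push_cast; linarith
      · refine le_trans (sum_le_sum fun i _ => ind_or_le _ _) ?_
        rw [sum_add_distrib]; push_cast; linarith
      · rw [not_or, not_and, not_not] at hN
        rw [node_snoc]; beta_reduce; split_ifs
        · exact fun h => hv1 N hN.1 (hN.2 h)
        · exact h4 N hN.1 p
      · rw [not_or, not_and, not_not] at hi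
        rw [node_snoc]; beta_reduce; split_ifs
        · exact fun h => hi.2 (hv2 i hi.1 h)
        · exact h5 i hi.1 p
    have hconst : ∀ b : Bool, ∃ E : Finset (Finset α), GoodP w Q E ∧ ∀ V, Acc E V ↔ b = true := by
      intro b
      cases b
      · exact ⟨∅, good_smallP hw hQ (by simp) (by simp), by simp [Neg.Acc]⟩
      · exact ⟨{∅}, good_smallP hw hQ (by simp) (by simp), by simp [Neg.Acc]⟩
    cases g with
    | const b =>
      obtain ⟨E, e1, e2⟩ := hconst b
      exact exact_case E e1 rfl e2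
    | input j =>
      rcases hρ j with ⟨a, ha⟩ | ⟨b, hb⟩
      · refine exact_case {{a}} (good_smallP hw hQ (by simp) (by simp)) rfl fun V => ?_
        simp [Neg.Acc, Gate.value, ha]
      · obtain ⟨E, e1, e2⟩ := hconst b
        exact exact_case E e1 rfl fun V => by simp only [Gate.value, hb, e2]
    | not a => simp [Gate.isNot] at hgs
    | and a b =>
      refine approx_case (image₂ (· ∪ ·) (D a) (D b)) (fun T hT => ?_) rfl (fun N hN h => ?_)
        (fun i hi h => ?_)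
      · obtain ⟨T₁, hT₁, T₂, hT₂, rfl⟩ := mem_image₂.mp hT
        have := (h1 a).1 T₁ hT₁
        have := (h1 b).1 T₂ hT₂
        have := card_union_le T₁ T₂
        omega
      · obtain ⟨T, hT, hTN⟩ := h
        obtain ⟨T₁, hT₁, T₂, hT₂, rfl⟩ := mem_image₂.mp hT
        simp only [Gate.value, Bool.and_eq_true]
        exact ⟨h4 N hN a ⟨T₁, hT₁, subset_union_left.trans hTN⟩,
          h4 N hN b ⟨T₂, hT₂, subset_union_right.trans hTN⟩⟩
      · simp only [Gate.value, Bool.and_eq_true] at h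
        obtain ⟨T₁, hT₁, e1⟩ := h5 i hi a h.1
        obtain ⟨T₂, hT₂, e2⟩ := h5 i hi b h.2
        exact ⟨T₁ ∪ T₂, mem_image₂_of_mem hT₁ hT₂, union_subset e1 e2⟩
    | or a b =>
      refine approx_case (D a ∪ D b) (fun T hT => ?_) rfl (fun N hN h => ?_) (fun i hi h => ?_)
      · rcases mem_union.mp hT with h | h
        · have := (h1 a).1 T h; omega
        · have := (h1 b).1 T h; omega
      · obtain ⟨T, hT, hTN⟩ := h
        simp only [Gate.value, Bool.or_eq_true]
        rcases mem_union.mp hT with h | h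
        · exact Or.inl (h4 N hN a ⟨T, h, hTN⟩)
        · exact Or.inr (h4 N hN b ⟨T, h, hTN⟩)
      · simp only [Gate.value, Bool.or_eq_true] at h
        rcases h with h | h
        · exact (h5 i hi a h).sub subset_union_left
        · exact (h5 i hi b h).sub subset_union_right

/-- the multiplicative form of the approximation method -/
theorem keyP {n w : ℕ} {Q : ℝ} (hw : 1 ≤ w) (hQ : 10240 * (w : ℝ) ≤ Q) {I : Finset ι} {S : ι → Finset α}
    (hS : PosSp w Q I S) (ρ : Finset α → Fin n → Bool)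
    (hρ : ∀ i, (∃ a, ∀ V, ρ V i = true ↔ a ∈ V) ∨ ∃ b, ∀ V, ρ V i = b) (gs : List (Gate n))
    (hgs : gs.countP Gate.isNot = 0) (p : ℕ) :
    ∑ i ∈ I, ind (node gs p (ρ (S i)) = true) ≤
      I.card * (2 * Ex (den w Q) (fun N => ind (node gs p (ρ N) = true)) +
        3 * (gs.countP Gate.isAndOr * (1 / 2) ^ w)) := by
  obtain ⟨D, BN, BP, h1, h2, h3, h4, h5⟩ := approx_listP hw hQ hS ρ hρ gs hgs
  have e1 : ∑ i ∈ I, ind (node gs p (ρ (S i)) = true) ≤
      ∑ i ∈ I, ind (Acc (D p) (S i)) + ∑ i ∈ I, ind (BP i) := by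
    rw [← sum_add_distrib]
    refine sum_le_sum fun i _ => le_trans (ind_mono fun h => ?_) (ind_or_le _ _)
    by_cases hb : BP i
    · exact Or.inr hb
    · exact Or.inl (h5 i hb p h)
  have e2 : Ex (den w Q) (fun N => ind (Acc (D p) N)) ≤
      Ex (den w Q) (fun N => ind (node gs p (ρ N) = true)) + Ex (den w Q) (fun N => ind (BN N)) := by
    rw [← Ex_add]
    refine Ex_mono (den_nonneg hw hQ) (den_le_one w Q) fun N =>
      le_trans (ind_mono fun h => ?_) (ind_or_le _ _)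
    by_cases hb : BN N
    · exact Or.inr hb
    · exact Or.inl (h4 N hb p h)
  have e3 := final_stepP hw hQ hS (h1 p)
  have e4 := mul_le_mul_of_nonneg_left (add_le_add_right h2
    (Ex (den w Q) (fun N => ind (node gs p (ρ N) = true)))) (Nat.cast_nonneg (α := ℝ) I.card)
  have e5 := mul_le_mul_of_nonneg_left e2 (Nat.cast_nonneg (α := ℝ) I.card)
  nlinarith

end Pool.Agent.Lib.MP_79d702_lc.Avg
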