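import Pool.Agent.Lib.MP_79d702_lc.Avg.Abs
import Pool.Agent.Lib.MP_79d702_lc.Neg.HR

/-!
Graphs of polynomials of low degree over a prime field, laid out in consecutive blocks.
-/

namespace Pool.Agent.Lib.MP_79d702_lc.Avg

open Finset Pool.Agent.Lib.MP_79d702_lc.Neg

/-- position of the point `(i, v)` of block `b` -/
def pos (k q b i v : ℕ) : ℕ := b * (k * q) + (i * q + v)

theorem pos_bounds {k q b i v : ℕ} (hi : i < k) (hv : v < q) :
    b * (k * q) ≤ pos k q b i v ∧ pos k q b i v < (b + 1) * (k * q) := by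
  unfold pos
  have : (i + 1) * q ≤ k * q := Nat.mul_le_mul_right _ hi
  rw [add_mul] at this
  rw [add_mul]
  omega

theorem pos_row {k q b i v : ℕ} (hv : v < q) : (pos k q b i v - b * (k * q)) / q = i := by
  unfold pos
  rw [Nat.add_sub_cancel_left, mul_comm, Nat.mul_add_div (by omega), Nat.div_eq_of_lt hv, add_zero]

theorem pos_col {k q b i v : ℕ} (hv : v < q) : (pos k q b i v - b * (k * q)) % q = v := by
  unfold pos
  rw [Nat.add_sub_cancel_left, mul_comm, Nat.mul_add_mod, Nat.mod_eq_of_lt hv]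

/-- value of the polynomial with coefficients `c` at `i` -/
def pev {q d : ℕ} (c : Fin d → ZMod q) (i : ℕ) : ℕ := (∑ j, c j * (i : ZMod q) ^ (j : ℕ)).val

/-- graph of the polynomial in block `b` -/
def gr (n k : ℕ) {q d : ℕ} (b : ℕ) (c : Fin d → ZMod q) : Finset (Fin n) :=
  univ.filter fun x => ∃ i ∈ range k, x.val = pos k q b i (pev c i)

/-- block `b` -/
def blk (n N b : ℕ) : Finset (Fin n) := univ.filter fun x => b * N ≤ x.val ∧ x.val < (b + 1) * N

theorem blk_disj (n N : ℕ) {i j : ℕ} (h : i ≠ j) : Disjoint (blk n N i) (blk n N j) := by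
  rw [disjoint_left]
  intro x h1 h2
  obtain ⟨h3, h4⟩ := (mem_filter.mp h1).2
  obtain ⟨h5, h6⟩ := (mem_filter.mp h2).2
  rcases lt_or_gt_of_ne h with e | e
  · have := Nat.mul_le_mul_right N (Nat.succ_le_of_lt e)
    rw [Nat.succ_eq_add_one] at this; omega
  · have := Nat.mul_le_mul_right N (Nat.succ_le_of_lt e)
    rw [Nat.succ_eq_add_one] at this; omega

theorem blk_card (n N b : ℕ) : (blk n N b).card ≤ N := by
  have : (blk n N b).card ≤ (Ico (b * N) ((b + 1) * N)).card :=
    card_le_card_of_injOn Fin.val (fun x hx => by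
      have := (mem_filter.mp (mem_coe.mp hx)).2
      exact mem_coe.mpr (mem_Ico.mpr this)) (Fin.val_injective.injOn)
  rw [Nat.card_Ico, add_mul] at this
  omega

section fam
variable {n k q d b : ℕ} [Fact q.Prime]

theorem pev_lt (c : Fin d → ZMod q) (i : ℕ) : pev c i < q := ZMod.val_lt _

theorem gr_sub (c : Fin d → ZMod q) : gr n k b c ⊆ blk n (k * q) b := by
  intro x hx
  obtain ⟨i, hi, e⟩ := (mem_filter.mp hx).2
  refine mem_filter.mpr ⟨mem_univ _, ?_⟩
  rw [e]
  exact pos_bounds (mem_range.mp hi) (pev_lt c i)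

theorem gr_card (hn : (b + 1) * (k * q) ≤ n) (c : Fin d → ZMod q) : (gr n k b c).card = k := by
  have : gr n k b c = univ.image fun i : Fin k => (⟨pos k q b i (pev c i),
      (pos_bounds i.isLt (pev_lt c i)).2.trans_le hn⟩ : Fin n) := by
    ext x
    simp only [gr, mem_filter, mem_univ, true_and, mem_image, mem_range]
    exact ⟨fun ⟨i, hi, e⟩ => ⟨⟨i, hi⟩, Fin.ext e.symm⟩,
      fun ⟨i, e⟩ => ⟨i, i.isLt, (congrArg Fin.val e).symm⟩⟩
  rw [this, card_image_of_injective]
  · simp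
  · intro i j h
    have h1 : pos k q b i (pev c i) = pos k q b j (pev c j) := congrArg Fin.val h
    have h2 := pos_row (k := k) (b := b) (i := i) (pev_lt c i)
    rw [h1, pos_row (pev_lt c j)] at h2
    exact Fin.ext h2.symm

theorem gr_sub_iff (hn : (b + 1) * (k * q) ≤ n) (c : Fin d → ZMod q) (V : Finset (Fin n)) :
    gr n k b c ⊆ V ↔ ∀ i < k, (List.ofFn (vf V)).getD (pos k q b i (pev c i)) false = true := by
  have key : ∀ (p : ℕ) (hp : p < n), (List.ofFn (vf V)).getD p false = true ↔ ⟨p, hp⟩ ∈ V := by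
    intro p hp
    simp [List.getD_eq_getElem?_getD, hp, vf]
  constructor
  · intro h i hi
    rw [key _ ((pos_bounds hi (pev_lt c i)).2.trans_le hn)]
    exact h (mem_filter.mpr ⟨mem_univ _, i, mem_range.mpr hi, rfl⟩)
  · intro h x hx
    obtain ⟨i, hi, e⟩ := (mem_filter.mp hx).2
    have := h i (mem_range.mp hi)
    rwa [← e, key _ x.isLt] at this

theorem gr_spread {w : ℕ} (hk : k ≤ q) (hw : 2 * w ≤ q) :
    PosSp w (q : ℝ) univ (fun c : Fin (2 * w) → ZMod q => gr n k b c) := by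
  classical
  intro T hT
  by_cases h0 : ∃ c₀ : Fin (2 * w) → ZMod q, T ⊆ gr n k b c₀
  · obtain ⟨c₀, h0⟩ := h0
    let row : Fin n → ZMod q := fun x => (((x.val - b * (k * q)) / q : ℕ) : ZMod q)
    have hrow : ∀ (c : Fin (2 * w) → ZMod q) (x : Fin n), x ∈ gr n k b c → ∃ i < k,
        x.val = pos k q b i (pev c i) ∧ row x = (i : ZMod q) ∧
        (x.val - b * (k * q)) % q = pev c i := by
      intro c x hx
      obtain ⟨i, hi, e⟩ := (mem_filter.mp hx).2
      refine ⟨i, mem_range.mp hi, e, ?_, ?_⟩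
      · simp only [row]; rw [e, pos_row (pev_lt c i)]
      · rw [e, pos_col (pev_lt c i)]
    have hc : (T.image row).card = T.card := by
      refine card_image_of_injOn fun x hx y hy h => ?_
      obtain ⟨i, hi, e1, e2, -⟩ := hrow c₀ x (h0 hx)
      obtain ⟨j, hj, e3, e4, -⟩ := hrow c₀ y (h0 hy)
      rw [e2, e4] at h
      have := congrArg ZMod.val h
      simp only [ZMod.val_natCast] at this
      rw [Nat.mod_eq_of_lt (by omega), Nat.mod_eq_of_lt (by omega)] at this
      exact Fin.ext (by rw [e1, e3, this])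
    have := count_poly (p := q) (d := 2 * w) hw (T.image row) (by omega)
      (fun j => univ.filter fun z : ZMod q =>
        ∀ x ∈ T, row x = j → z.val = (x.val - b * (k * q)) % q) (q : ℝ) (by positivity)
      fun j hj => ?_
    · rw [hc] at this
      refine le_trans (mul_le_mul_of_nonneg_right (sum_le_sum fun c _ => ind_mono ?_)
        (by positivity)) (this.trans_eq ?_)
      · intro h j _
        refine mem_filter.mpr ⟨mem_univ _, fun x hx e => ?_⟩
        obtain ⟨i, -, -, e2, e3⟩ := hrow c x (h hx)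
        rw [e3, ← e, e2]; rfl
      · simp [ZMod.card]
    · obtain ⟨x, hx, rfl⟩ := mem_image.mp hj
      have h1 : (univ.filter fun z : ZMod q => ∀ y ∈ T, row y = row x →
          z.val = (y.val - b * (k * q)) % q).card ≤ 1 := by
        refine card_le_one.mpr fun z hz z' hz' => ZMod.val_injective q ?_
        rw [(mem_filter.mp hz).2 x hx rfl, (mem_filter.mp hz').2 x hx rfl]
      have h2 : ((univ.filter fun z : ZMod q => ∀ y ∈ T, row y = row x →
          z.val = (y.val - b * (k * q)) % q).card : ℝ) ≤ 1 := by exact_mod_cast h1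
      calc _ ≤ 1 * (q : ℝ) := mul_le_mul_of_nonneg_right h2 (by positivity)
        _ = _ := one_mul _
  · rw [sum_eq_zero fun c _ => ind_neg fun h => h0 ⟨c, h⟩, zero_mul]
    exact Nat.cast_nonneg _

/-- the value at `i` of the polynomial whose coefficients are the digits of `Y` -/
def hv (q d Y i : ℕ) : ℕ := ((List.range d).map fun j => Y / q ^ j % q * i ^ j).sum % q

theorem hv_eq (Y i : ℕ) :
    hv q d Y i = pev (fun j : Fin d => ((Y / q ^ j.val % q : ℕ) : ZMod q)) i := by
  unfold hv pev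
  rw [← ZMod.val_natCast q]
  congr 1
  rw [sum_map_range, Finset.sum_range, Nat.cast_sum]
  refine sum_congr rfl fun j _ => ?_
  simp

theorem exists_hv (c : Fin d → ZMod q) : ∃ Y < q ^ d, ∀ i, hv q d Y i = pev c i := by
  obtain ⟨Y, hY, h⟩ := exists_digits q d fun j => ⟨(c j).val, ZMod.val_lt _⟩
  refine ⟨Y, hY, fun i => ?_⟩
  rw [hv_eq]
  congr 1
  ext j
  rw [h j]; simp

end fam

theorem count_eq {n : ℕ} (P : (Fin n → Bool) → Prop) [DecidablePred P] :
    ((univ.filter P).card : ℝ) / 2 ^ n = Ex (1 / 2) (fun V => ind (P (vf V))) := by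
  have h1 : ∀ V : Finset (Fin n), mu (1 / 2) V = (1 / 2) ^ n := by
    intro V
    unfold mu
    rw [prod_congr rfl (g := fun _ => (1 / 2 : ℝ)) fun i _ => by split_ifs <;> norm_num]
    simp
  unfold Ex
  simp only [h1]
  rw [← mul_sum, one_div, inv_pow, mul_comm, ← div_eq_mul_inv, ← sum_ind_eq_card]
  congr 1
  refine (Fintype.sum_bijective vf ⟨fun U V h => ?_, fun x => ?_⟩ _ _ fun _ => rfl).symm
  · ext i
    have := congrFun h i
    simpa [vf] using this
  · exact ⟨univ.filter fun i => x i = true, by ext i; simp [vf]⟩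

/-- the bound for the OR of `M` blocks of polynomial graphs -/
theorem fam_bound {n w k q M : ℕ} {σ η : ℝ} (hq : q.Prime) (hw : 1 ≤ w) (hQ : 10240 * w ≤ q)
    (hk : 2 * k ≤ q) (hn : M * (k * q) ≤ n)
    (hlam : (q : ℝ) ^ (2 * w) * (1 / 2) ^ k ≤ 1)
    (hb1 : (1 - (q : ℝ) ^ (2 * w) * (1 / 2) ^ k) ^ M ≤ 1 / 2)
    (hb2 : 1 / 2 - η ≤ (1 - (q : ℝ) ^ (2 * w) * (1 / 2) ^ k) ^ M)
    (hσ : 0 < σ) (hvar : M * ((1 + den w q ^ 2) ^ (k * q) - 1) ≤ σ ^ 2) (C : Circuit n)
    (f : (Fin n → Bool) → Bool)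
    (hf : ∀ x, f x = true ↔ ∃ b < M, ∃ Y < q ^ (2 * w), ∀ i < k,
      (List.ofFn x).getD (pos k q b i (hv q (2 * w) Y i)) false = true) :
    ((univ.filter fun x => C.eval x = f x).card : ℝ) / 2 ^ n ≤
      1 / 2 + η + M * (2 * ((q : ℝ) ^ (2 * w) * (1 / 2) ^ k) ^ 2) +
        2 ^ (C.nots + 2) * ((q : ℝ) ^ (2 * w) * (1 / 2) ^ k) *
          (2 * σ + M * (3 * (C.size * (1 / 2) ^ w))) := by
  classical
  have : Fact q.Prime := ⟨hq⟩
  have hI : ((univ : Finset (Fin (2 * w) → ZMod q)).card : ℝ) = (q : ℝ) ^ (2 * w) := by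
    simp [ZMod.card]
  have hb : ∀ b < M, (b + 1) * (k * q) ≤ n := fun b h => (Nat.mul_le_mul_right _ h).trans hn
  have h := abstract_avg (σ := σ) (η := η) (Q := (q : ℝ)) hw (by exact_mod_cast hQ)
    (univ : Finset (Fin (2 * w) → ZMod q)) (fun b c => gr n k b c) (blk n (k * q)) M k (k * q)
    (by exact_mod_cast hk) (fun i _ j _ h => blk_disj n _ h) (fun i _ => blk_card n _ i)
    (fun b h c _ => ⟨gr_sub c, gr_card (hb b h) c⟩)
    (fun b _ => gr_spread (by omega) (by omega)) hI.le (by rwa [hI]) (by rwa [hI]) (by rwa [hI])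
    hσ hvar C
  rw [hI] at h
  rw [count_eq]
  refine le_trans (le_of_eq ?_) h
  congr 1; ext V
  refine ind_congr ?_
  rw [Bool.eq_iff_iff, hf]
  refine iff_congr Iff.rfl (exists_congr fun b => and_congr_right fun hbM => ?_)
  simp only [gr_sub_iff (hb b hbM), mem_univ, true_and]
  constructor
  · rintro ⟨Y, -, h⟩
    exact ⟨_, fun i hi => by rw [← hv_eq]; exact h i hi⟩
  · rintro ⟨c, h⟩
    obtain ⟨Y, hY, e⟩ := exists_hv c
    exact ⟨Y, hY, fun i hi => by rw [e]; exact h i hi⟩

end Pool.Agent.Lib.MP_79d702_lc.Avg
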