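import Pool.Agent.Lib.MP_79d702_lc.Avg.Lang

/-!
The parameters and the final bound.
-/

namespace Pool.Agent.Lib.MP_79d702_lc.Avg

open Finset Pool.Agent.Shared.PolyTime Pool.Agent.Lib.MP_79d702_lc.Neg

theorem par_spec {n w : ℕ} (hn : 1 ≤ n) (hw : 1 ≤ w)
    (H : 3000000000 * (w * w * Nat.size n) ≤ uu n) :
    (qq n w).Prime ∧ w * uu n < qq n w ∧ 2 * w ≤ n ∧ 1 ≤ nb n w ∧
      uu n ≤ 48 * (w * w * Nat.size n) * nb n w ∧ kb n w ≤ 3 * (w * Nat.size n) ∧
      2 * nb n w * (kb n w * qq n w) ≤ n ∧ 2 * nb n w ≤ n ∧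
      qq n w ^ (2 * w) * nb n w < 2 ^ kb n w ∧ 2 ^ kb n w ≤ 2 * (qq n w ^ (2 * w) * nb n w) := by
  obtain ⟨u1, u2⟩ := uu_spec hn
  have hL : 1 ≤ Nat.size n := Nat.size_pos.mpr hn
  have hnL : n < 2 ^ Nat.size n := Nat.lt_size_self n
  set u := uu n with hu
  set L := Nat.size n with hLd
  have a1 : w * L ≤ w * w * L := Nat.mul_le_mul_right _ (Nat.le_mul_self w)
  have a2 : w ≤ w * L := Nat.le_mul_of_pos_right _ hL
  have a3 : 2 * (w * u) ≤ n := by
    have : 4 * w * u ≤ u * u := Nat.mul_le_mul_right _ (by omega)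
    nlinarith
  have a4 : u ≤ w * u := Nat.le_mul_of_pos_left _ hw
  obtain ⟨q1, q2, q3⟩ := qq_spec (n := n) (w := w) (by rw [← hu]; omega) a3
  rw [← hu] at q2 q3
  set q := qq n w with hq
  have b1 : (2 * w + 1) * L ≤ 3 * (w * L) := by nlinarith
  have b2 : 2 * ((2 * w + 1) * L) * q ≤ 12 * (w * w * L) * u := by
    calc _ ≤ 2 * (3 * (w * L)) * (2 * (w * u)) := Nat.mul_le_mul (by omega) q3
      _ = _ := by ring
  have b3 : 12 * (w * w * L) * u ≤ n := by
    have : 24 * (w * w * L) * u ≤ u * u := Nat.mul_le_mul_right _ (by omega)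
    nlinarith
  have b4 : 0 < 2 * ((2 * w + 1) * L) * q := by
    have := q1.pos
    positivity
  have hnb : nb n w = n / (2 * ((2 * w + 1) * L) * q) := rfl
  set m := nb n w with hm
  have c1 : 1 ≤ m := by rw [hnb]; exact Nat.div_pos (b2.trans b3) b4
  have c2 : m * (2 * ((2 * w + 1) * L) * q) ≤ n := by rw [hnb]; exact Nat.div_mul_le_self _ _
  have c3 : n < 2 * ((2 * w + 1) * L) * q * (m + 1) := by
    rw [hnb]; exact Nat.lt_mul_div_succ _ b4
  have c4 : u ≤ 48 * (w * w * L) * m := by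
    have h1 : n ≤ 12 * (w * w * L) * u * (2 * m) := c3.le.trans (Nat.mul_le_mul b2 (by omega))
    have h2 : u * u ≤ u * (48 * (w * w * L) * m) := by nlinarith
    exact Nat.le_of_mul_le_mul_left h2 (by omega)
  have c5 : 2 * m ≤ n := by
    have h1 : 1 ≤ (2 * w + 1) * L * q := by nlinarith
    nlinarith
  have htot : tot n w = q ^ (2 * w) := by unfold tot; rw [min_eq_left (by omega)]
  have d0 : 0 < q ^ (2 * w) * m := Nat.mul_pos (pow_pos q1.pos _) c1
  have d1 : Nat.size (q ^ (2 * w) * m) ≤ (2 * w + 1) * L := by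
    rw [Nat.size_le, mul_comm (2 * w + 1), pow_mul 2 L, pow_succ (2 ^ L)]
    have h1 : q ≤ 2 ^ L := (q3.trans a3).trans hnL.le
    have h2 : m < 2 ^ L := lt_of_le_of_lt (by omega) hnL
    exact Nat.mul_lt_mul_of_le_of_lt (Nat.pow_le_pow_left h1 _) h2 (by positivity)
  have hkb : kb n w = Nat.size (q ^ (2 * w) * m) := by
    unfold kb; rw [htot, ← hm, min_eq_left (by omega)]
  have d2 : 1 ≤ Nat.size (q ^ (2 * w) * m) := Nat.size_pos.mpr d0
  have d3 : 2 ^ (Nat.size (q ^ (2 * w) * m) - 1) ≤ q ^ (2 * w) * m := Nat.lt_size.mp (by omega)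
  refine ⟨q1, q2, by omega, c1, c4, by omega, ?_, c5, hkb ▸ Nat.lt_size_self _, ?_⟩
  · refine le_trans ?_ c2
    have := Nat.mul_le_mul_right q (hkb ▸ d1)
    nlinarith
  · rw [hkb, show Nat.size (q ^ (2 * w) * m) = Nat.size (q ^ (2 * w) * m) - 1 + 1 by omega,
      pow_succ]
    omega

theorem pow_half {x : ℝ} (h0 : 0 ≤ x) (h1 : x ≤ 1) (M : ℕ) (h : 1 ≤ M * x) :
    (1 - x) ^ M ≤ 1 / 2 := by
  have e1 : (1 - x) ^ M * (1 + x) ^ M ≤ 1 := by
    rw [← mul_pow]
    exact pow_le_one₀ (by nlinarith) (by nlinarith)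
  have e2 := one_add_mul_le_pow (a := x) (by linarith) M
  have e3 : 0 ≤ (1 - x) ^ M := pow_nonneg (by linarith) _
  nlinarith

theorem MM_spec {n w m : ℕ} (h2 : 2 * w ≤ n) (hm : 2 * m ≤ n) (hm1 : 1 ≤ m)
    (h3 : qq n w ^ (2 * w) * m < 2 ^ kb n w) (h4 : 2 ^ kb n w ≤ 2 * (qq n w ^ (2 * w) * m)) :
    MM n w ≤ 2 * m ∧ (qq n w : ℝ) ^ (2 * w) * (1 / 2) ^ kb n w * m ≤ 1 ∧
      (1 - (qq n w : ℝ) ^ (2 * w) * (1 / 2) ^ kb n w) ^ MM n w ≤ 1 / 2 ∧
      1 / 2 - (qq n w : ℝ) ^ (2 * w) * (1 / 2) ^ kb n w / 2 ≤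
        (1 - (qq n w : ℝ) ^ (2 * w) * (1 / 2) ^ kb n w) ^ MM n w := by
  have htot : tot n w = qq n w ^ (2 * w) := by unfold tot; rw [min_eq_left h2]
  set a := qq n w ^ (2 * w) with ha
  set b := 2 ^ kb n w with hb
  have hb0 : (0 : ℝ) < b := by positivity
  have hab : a ≤ b := (Nat.le_mul_of_pos_right _ hm1).trans h3.le
  have hl : (qq n w : ℝ) ^ (2 * w) * (1 / 2) ^ kb n w = a / b := by
    rw [ha, hb, one_div, inv_pow]; push_cast; rfl
  rw [hl]
  have l0 : (0 : ℝ) ≤ a / b := by positivity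
  have l1 : (a : ℝ) / b ≤ 1 := by rw [div_le_one hb0]; exact_mod_cast hab
  have key : ∀ M ≤ n, decide (2 * (b - tot n w) ^ min M n ≤ b ^ min M n) = true ↔
      (1 - (a : ℝ) / b) ^ M ≤ 1 / 2 := by
    intro M hM
    rw [decide_eq_true_eq, min_eq_left hM, htot, one_sub_div hb0.ne', div_pow,
      div_le_div_iff₀ (by positivity) (by norm_num), one_mul, mul_comm _ (2 : ℝ),
      ← Nat.cast_sub hab]
    exact_mod_cast Iff.rfl
  have e0 : (1 - (a : ℝ) / b) ^ (2 * m) ≤ 1 / 2 := by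
    refine pow_half l0 l1 _ ?_
    rw [← mul_div_assoc, le_div_iff₀ hb0, one_mul]
    have : b ≤ 2 * m * a := by nlinarith
    exact_mod_cast this
  obtain ⟨e1, e2, e3⟩ := findIdx_range
    (p := fun M => decide (2 * (b - tot n w) ^ min M n ≤ b ^ min M n))
    (N := n + 1) (j := 2 * m) (by omega) ((key _ hm).mpr e0)
  change MM n w ≤ 2 * m at e1
  change decide (2 * (b - tot n w) ^ min (MM n w) n ≤ b ^ min (MM n w) n) = true at e2
  change ∀ i < MM n w, decide (2 * (b - tot n w) ^ min i n ≤ b ^ min i n) = false at e3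
  refine ⟨e1, ?_, (key _ (by omega)).mp e2, ?_⟩
  · rw [div_mul_eq_mul_div, div_le_one hb0]
    exact_mod_cast h3.le
  · rcases Nat.eq_zero_or_pos (MM n w) with h | h
    · rw [h, pow_zero]; linarith
    · have e4 := e3 (MM n w - 1) (by omega)
      have e5 : 1 / 2 ≤ (1 - (a : ℝ) / b) ^ (MM n w - 1) := by
        by_contra h'
        rw [(key _ (by omega)).mpr (not_le.mp h').le] at e4
        exact Bool.noConfusion e4
      rw [show MM n w = MM n w - 1 + 1 by omega, pow_succ]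
      nlinarith

theorem arith {lam ε δ T M : ℝ} (l0 : 0 ≤ lam) (e1 : lam ≤ 48 * ε) (e2 : M * lam ≤ 2)
    (e3 : 1 ≤ T) (e4 : 0 ≤ δ) :
    1 / 2 + lam / 2 + M * (2 * lam ^ 2) + T * 4 * lam * (2 * 40960 + M * (3 * δ)) ≤
      1 / 2 + 3000000000 * T * (ε + δ) := by
  have e6 : M * (2 * lam ^ 2) ≤ 4 * lam := by nlinarith
  have e7 : lam ≤ T * lam := le_mul_of_one_le_left l0 e3
  have e8 : T * lam ≤ T * (48 * ε) := mul_le_mul_of_nonneg_left e1 (by linarith)
  have e9 : T * (M * lam * δ) ≤ T * (2 * δ) :=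
    mul_le_mul_of_nonneg_left (mul_le_mul_of_nonneg_right e2 e4) (by linarith)
  have e10 : 0 ≤ T * δ := mul_nonneg (by linarith) e4
  have e11 : 0 ≤ T * ε := mul_nonneg (by linarith) (by linarith)
  nlinarith

theorem good_bound {n w : ℕ} (hn : 1 ≤ n) (hw : 1 ≤ w)
    (H : 3000000000 * (w * w * Nat.size n) ≤ uu n) (C : Circuit n) :
    ((univ.filter fun x : Fin n → Bool =>
      C.eval x = langA (List.replicate w true ++ false :: List.ofFn x)).card : ℝ) / 2 ^ n ≤
      1 / 2 + 3000000000 * 2 ^ C.nots *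
        ((w : ℝ) ^ 2 * Nat.size n / uu n + C.size * (1 / 2) ^ w) := by
  obtain ⟨p1, p2, p3, p4, p5, p6, p7, p8, p9, p10⟩ := par_spec hn hw H
  obtain ⟨m1, m2, m3, m4⟩ := MM_spec p3 p8 p4 p9 p10
  obtain ⟨u1, u2⟩ := uu_spec hn
  have hL : 1 ≤ Nat.size n := Nat.size_pos.mpr hn
  set u := uu n with hu
  set L := Nat.size n with hLd
  set q := qq n w with hq
  set k := kb n w with hk
  set m := nb n w with hm
  set M := MM n w with hM
  have a1 : w * L ≤ w * w * L := Nat.mul_le_mul_right _ (Nat.le_mul_self w)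
  have a2 : w ≤ w * L := Nat.le_mul_of_pos_right _ hL
  have a4 : u ≤ w * u := Nat.le_mul_of_pos_left _ hw
  have a5 : M * (k * q) ≤ n := (Nat.mul_le_mul_right _ m1).trans p7
  have hu0 : (0 : ℝ) < u := by exact_mod_cast (by omega : 0 < u)
  have hq0 : (0 : ℝ) < q := by exact_mod_cast p1.pos
  have hm1 : (1 : ℝ) ≤ m := by exact_mod_cast p4
  have hQ : 10240 * w ≤ q := by omega
  set lam : ℝ := (q : ℝ) ^ (2 * w) * (1 / 2) ^ k with hlam
  have l0 : 0 ≤ lam := by positivity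
  have hp0 : 0 ≤ den w q := den_nonneg hw (by exact_mod_cast hQ)
  have hp1 : den w q * q ≤ 20480 * w := by
    have := den_le w (q : ℝ)
    rwa [le_div_iff₀ hq0] at this
  have hp2 : den w q * u ≤ 20480 := by
    have h1 : (w : ℝ) * u ≤ q := by exact_mod_cast p2.le
    have h2 : (0 : ℝ) < w := by exact_mod_cast hw
    refine le_of_mul_le_mul_left ?_ h2
    calc (w : ℝ) * (den w q * u) = den w q * (w * u) := by ring
      _ ≤ den w q * q := mul_le_mul_of_nonneg_left h1 hp0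
      _ ≤ _ := by linarith
  have hvar : (M : ℝ) * ((1 + den w q ^ 2) ^ (k * q) - 1) ≤ 40960 ^ 2 := by
    have h1 : ((k * q : ℕ) : ℝ) * den w q ^ 2 ≤ 1 / 2 := by
      have h2 : (3000000000 : ℝ) * (w * k) ≤ 3 * u := by
        have h3 : w * k ≤ 3 * (w * w * L) :=
          (Nat.mul_le_mul_left w p6).trans_eq (by ring)
        have : 3000000000 * (w * k) ≤ 3 * u := by omega
        exact_mod_cast this
      refine le_of_mul_le_mul_right ?_ hu0
      push_cast
      calc (k : ℝ) * q * den w q ^ 2 * u = k * ((den w q * q) * (den w q * u)) := by ring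
        _ ≤ k * ((20480 * w) * 20480) := by gcongr
        _ = 419430400 * (w * k) := by ring
        _ ≤ _ := by linarith
    have h2 := pow_le_lin (sq_nonneg (den w q)) (k * q) h1
    have h3 : (M : ℝ) * ((k * q : ℕ) : ℝ) ≤ 2 * (u * u) := by exact_mod_cast a5.trans u2
    have h4 : (den w q * u) ^ 2 ≤ 20480 ^ 2 := pow_le_pow_left₀ (by positivity) hp2 2
    calc _ ≤ (M : ℝ) * (2 * (((k * q : ℕ) : ℝ) * den w q ^ 2)) :=
          mul_le_mul_of_nonneg_left (by linarith) (Nat.cast_nonneg _)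
      _ = 2 * ((M : ℝ) * ((k * q : ℕ) : ℝ)) * den w q ^ 2 := by ring
      _ ≤ 2 * (2 * (u * u)) * den w q ^ 2 := by gcongr
      _ = 4 * (den w q * u) ^ 2 := by ring
      _ ≤ _ := by linarith
  have main := fam_bound (σ := 40960) (η := lam / 2) p1 hw hQ (by omega) a5
    ((le_mul_of_one_le_right l0 hm1).trans m2) m3 m4
    (by norm_num) hvar C (fun x => langA (List.replicate w true ++ false :: List.ofFn x)) fun x => ?_
  · refine main.trans ?_
    rw [← hlam]
    set ε : ℝ := (w : ℝ) ^ 2 * L / u with hε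
    have e1 : lam ≤ 48 * ε := by
      have h1 : (u : ℝ) ≤ 48 * (w * w * L) * m := by exact_mod_cast p5
      rw [hε, ← mul_div_assoc, le_div_iff₀ hu0]
      have h2 : (0 : ℝ) ≤ 48 * (w * w * L) := by positivity
      calc lam * u ≤ lam * (48 * (w * w * L) * m) := mul_le_mul_of_nonneg_left h1 l0
        _ = 48 * (w * w * L) * (lam * m) := by ring
        _ ≤ 48 * (w * w * L) * 1 := mul_le_mul_of_nonneg_left m2 h2
        _ = _ := by ring
    have e2 : M * lam ≤ 2 := by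
      have h1 : (M : ℝ) ≤ 2 * m := by exact_mod_cast m1
      calc M * lam ≤ 2 * m * lam := mul_le_mul_of_nonneg_right h1 l0
        _ = 2 * (lam * m) := by ring
        _ ≤ 2 := by linarith
    rw [pow_add, show (2 : ℝ) ^ 2 = 4 by norm_num]
    exact arith l0 e1 e2 (one_le_pow₀ (by norm_num)) (by positivity)
  · simp only [langA_iff, List.length_ofFn, chkA, List.any_eq_true, List.all_eq_true,
      List.mem_range, hB_eq p3]
    rw [← hM, ← hk, ← hq, min_eq_left (by omega : M ≤ n)]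
    have : Fact q.Prime := ⟨p1⟩
    constructor
    · rintro ⟨y, -, b, hb, h⟩
      obtain ⟨Y, hY, e⟩ := exists_hv (fun j : Fin (2 * w) => ((val y / q ^ j.val % q : ℕ) : ZMod q))
      exact ⟨b, hb, Y, hY, fun i hi => by rw [e, ← hv_eq]; exact h i hi⟩
    · rintro ⟨b, hb, Y, hY, h⟩
      refine ⟨Y.bits, ?_, b, hb, by rwa [val_bits]⟩
      rw [Nat.size_eq_bits_len]
      have h1 : Y < 2 ^ k := (hY.trans_le (Nat.le_mul_of_pos_right _ p4)).trans p9
      have h2 := Nat.size_le.mpr h1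
      have h3 : k ≤ n := min_le_right _ _
      omega

theorem final_avg {n w : ℕ} (hn : 1 ≤ n) (hw : 1 ≤ w) (C : Circuit n) :
    ((univ.filter fun x : Fin n → Bool =>
      C.eval x = langA (List.replicate w true ++ false :: List.ofFn x)).card : ℝ) / 2 ^ n ≤
      1 / 2 + 6000000000 * 2 ^ C.nots *
        ((w : ℝ) ^ 2 * (Nat.log 2 n + 1) / √n + C.size / 2 ^ w) := by
  obtain ⟨u1, u2⟩ := uu_spec hn
  have hu0 : (0 : ℝ) < uu n := by unfold uu; positivity
  have hn0 : (0 : ℝ) < √n := Real.sqrt_pos.mpr (by exact_mod_cast hn)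
  have hL : (Nat.size n : ℝ) ≤ Nat.log 2 n + 1 := by
    exact_mod_cast Nat.size_le.mpr (Nat.lt_pow_succ_log_self (by norm_num) n)
  have e1 : (w : ℝ) ^ 2 * Nat.size n / uu n ≤ 2 * ((w : ℝ) ^ 2 * (Nat.log 2 n + 1) / √n) := by
    have h1 : √n ≤ 2 * uu n := by
      rw [Real.sqrt_le_left (by positivity)]
      have : (n : ℝ) ≤ 2 * (uu n * uu n) := by exact_mod_cast u2
      nlinarith
    rw [← mul_div_assoc, div_le_div_iff₀ hu0 hn0]
    calc _ ≤ (w : ℝ) ^ 2 * (Nat.log 2 n + 1) * (2 * uu n) := by gcongr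
      _ = _ := by ring
  have e2 : (C.size : ℝ) * (1 / 2) ^ w = C.size / 2 ^ w := by rw [one_div, inv_pow]; rfl
  have e3 : (1 : ℝ) ≤ 2 ^ C.nots := one_le_pow₀ (by norm_num)
  have e4 : (0 : ℝ) ≤ C.size / 2 ^ w := by positivity
  have e5 : (0 : ℝ) ≤ (w : ℝ) ^ 2 * Nat.size n / uu n := by positivity
  refine le_trans (b := 1 / 2 + 3000000000 * 2 ^ C.nots *
    ((w : ℝ) ^ 2 * Nat.size n / uu n + C.size / 2 ^ w)) ?_ (by nlinarith)
  by_cases H : 3000000000 * (w * w * Nat.size n) ≤ uu n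
  · rw [← e2]; exact good_bound hn hw H C
  · have h1 : ((univ.filter fun x : Fin n → Bool =>
        C.eval x = langA (List.replicate w true ++ false :: List.ofFn x)).card : ℝ) / 2 ^ n ≤ 1 := by
      rw [div_le_one (by positivity)]
      have := card_le_univ (univ.filter fun x : Fin n → Bool =>
        C.eval x = langA (List.replicate w true ++ false :: List.ofFn x))
      rw [Fintype.card_fun, Fintype.card_bool, Fintype.card_fin] at this
      exact_mod_cast this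
    have h2 : 1 ≤ 3000000000 * ((w : ℝ) ^ 2 * Nat.size n / uu n) := by
      rw [← mul_div_assoc, le_div_iff₀ hu0, one_mul, sq]
      exact_mod_cast (not_le.mp H).le
    nlinarith

end Pool.Agent.Lib.MP_79d702_lc.Avg
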