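import Pool.Agent.Lib.MP_79d702_lc.Avg.Fam
import Pool.Agent.Shared.PolyTime

/-!
The language: parameters, verifier, membership in NP, monotonicity.
-/

namespace Pool.Agent.Lib.MP_79d702_lc.Avg

open Pool.Agent.Shared.PolyTime Pool.Agent.Lib.MP_79d702_lc.Neg

def uu (n : ℕ) : ℕ := 2 ^ min (Nat.size n / 2) n
def isP (n b : ℕ) : Bool :=
  decide (2 ≤ b) && (List.range (min b n)).all fun e => decide (e < 2) || decide (b % e ≠ 0)
def qq (n w : ℕ) : ℕ := (List.range (n + 1)).findIdx fun b => decide (w * uu n < b) && isP n b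
def tot (n w : ℕ) : ℕ := qq n w ^ min (2 * w) n
def nb (n w : ℕ) : ℕ := n / (2 * ((2 * w + 1) * Nat.size n) * qq n w)
def kb (n w : ℕ) : ℕ := min (Nat.size (tot n w * nb n w)) n
def MM (n w : ℕ) : ℕ := (List.range (n + 1)).findIdx fun M =>
  decide (2 * (2 ^ kb n w - tot n w) ^ min M n ≤ (2 ^ kb n w) ^ min M n)
def hB (n w Y i : ℕ) : ℕ := ((List.range (min (2 * w) n)).map fun j =>
  Y / qq n w ^ min j n % qq n w * i ^ min j n).sum % qq n w

def chkA (x : List Bool) (w Y : ℕ) : Bool :=
  (List.range (min (MM x.length w) x.length)).any fun b => (List.range (kb x.length w)).all fun i =>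
    x.getD (pos (kb x.length w) (qq x.length w) b i (hB x.length w Y i)) false

def ver (z y : List Bool) : Bool := chkA (z.drop (z.idxOf false + 1)) (z.idxOf false) (val y)

open Classical in
/-- the language -/
noncomputable def langA (z : List Bool) : Bool :=
  decide (∃ y : List Bool, y.length ≤ z.length ∧ ver z y = true)

section pt
variable {α : Type} [N487b59b3 α]

@[fun_prop] theorem size_pt' {w : α → ℕ} (hw : PT w) : PT (fun a => Nat.size (w a)) :=
  hw.sz.of_eq fun _ => sz_nat _
@[fun_prop] theorem uu_pt {x : α → List Bool} (hx : PT x) : PT (fun a => uu (x a).length) := by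
  unfold uu; fun_prop
@[fun_prop] theorem isP_pt {x : α → List Bool} {b : α → ℕ} (hx : PT x) (hb : PT b) :
    PT (fun a => isP (x a).length (b a)) := by
  unfold isP; fun_prop
@[fun_prop] theorem qq_pt {x : α → List Bool} {w : α → ℕ} (hx : PT x) (hw : PT w) :
    PT (fun a => qq (x a).length (w a)) := by
  unfold qq; fun_prop
@[fun_prop] theorem tot_pt {x : α → List Bool} {w : α → ℕ} (hx : PT x) (hw : PT w) :
    PT (fun a => tot (x a).length (w a)) := by
  unfold tot; fun_prop
@[fun_prop] theorem nb_pt {x : α → List Bool} {w : α → ℕ} (hx : PT x) (hw : PT w) :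
    PT (fun a => nb (x a).length (w a)) := by
  unfold nb; fun_prop
@[fun_prop] theorem kb_pt {x : α → List Bool} {w : α → ℕ} (hx : PT x) (hw : PT w) :
    PT (fun a => kb (x a).length (w a)) := by
  unfold kb; fun_prop
@[fun_prop] theorem kb_pb {x : α → List Bool} {w : α → ℕ} (hx : PT x) :
    PB (fun a => kb (x a).length (w a)) :=
  (PB.length hx).mono fun _ => min_le_right _ _
@[fun_prop] theorem MM_pt {x : α → List Bool} {w : α → ℕ} (hx : PT x) (hw : PT w) :
    PT (fun a => MM (x a).length (w a)) := by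
  unfold MM; fun_prop
@[fun_prop] theorem hB_pt {x : α → List Bool} {w Y i : α → ℕ} (hx : PT x) (hw : PT w)
    (hY : PT Y) (hi : PT i) : PT (fun a => hB (x a).length (w a) (Y a) (i a)) := by
  unfold hB; fun_prop
@[fun_prop] theorem chkA_pt {x : α → List Bool} {w Y : α → ℕ} (hx : PT x) (hw : PT w)
    (hY : PT Y) : PT (fun a => chkA (x a) (w a) (Y a)) := by
  unfold chkA pos; fun_prop

end pt

theorem langA_np : langA ∈ N68a2faeb.NP := by
  refine ⟨Polynomial.X, fun p => ver p.1 p.2, PT.isPolyTime ?_, fun x => ?_⟩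
  · unfold ver; fun_prop
  · simp [langA]

theorem ver_eq (w : ℕ) (x y : List Bool) :
    ver (List.replicate w true ++ false :: x) y = chkA x w (val y) := by
  have h : (List.replicate w true ++ false :: x).idxOf false = w := by
    induction w with
    | zero => simp
    | succ w ih => rw [List.replicate_succ, List.cons_append, List.idxOf_cons_ne _ (by simp), ih]
  unfold ver
  rw [h]
  congr 1
  rw [List.drop_append]
  simp

theorem langA_iff (w : ℕ) (x : List Bool) :
    langA (List.replicate w true ++ false :: x) = true ↔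
      ∃ y : List Bool, y.length ≤ w + (x.length + 1) ∧ chkA x w (val y) = true := by
  simp [langA, ver_eq]

theorem langA_mono (n w : ℕ) :
    Monotone fun x : Fin n → Bool => langA (List.replicate w true ++ false :: List.ofFn x) := by
  intro x y hxy
  rw [Bool.le_iff_imp]
  simp only [langA_iff, List.length_ofFn, chkA, List.any_eq_true, List.all_eq_true]
  rintro ⟨v, h1, b, hb, h2⟩
  refine ⟨v, h1, b, hb, fun i hi => ?_⟩
  have := h2 i hi
  simp only [List.getD_eq_getElem?_getD, List.getElem?_ofFn] at this ⊢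
  split_ifs at this ⊢ with h
  · exact Bool.le_iff_imp.mp (hxy _) this
  · exact this

theorem findIdx_range {p : ℕ → Bool} {N j : ℕ} (hj : j < N) (hp : p j = true) :
    (List.range N).findIdx p ≤ j ∧ p ((List.range N).findIdx p) = true ∧
      ∀ i < (List.range N).findIdx p, p i = false := by
  have h1 : (List.range N).findIdx p < (List.range N).length :=
    List.findIdx_lt_length_of_exists ⟨j, List.mem_range.mpr hj, hp⟩
  have h3 : ∀ i < (List.range N).findIdx p, p i = false := by
    intro i hi
    have := List.not_of_lt_findIdx hi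
    simpa using this
  refine ⟨?_, ?_, h3⟩
  · by_contra h
    rw [h3 j (not_le.mp h)] at hp
    exact Bool.false_ne_true hp
  · have := List.findIdx_getElem (w := h1)
    simpa using this

theorem isP_iff {n b : ℕ} (h : b ≤ n) : isP n b = true ↔ b.Prime := by
  unfold isP
  rw [min_eq_left h, Nat.prime_def_lt']
  simp only [Bool.and_eq_true, decide_eq_true_eq, List.all_eq_true, List.mem_range,
    Bool.or_eq_true, Nat.dvd_iff_mod_eq_zero]
  refine and_congr_right fun _ => ⟨fun h m h1 h2 => (h m h2).resolve_left (by omega),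
    fun h m h1 => ?_⟩
  by_cases h2 : m < 2
  · exact Or.inl h2
  · exact Or.inr (h m (by omega) h1)

theorem qq_spec {n w : ℕ} (h0 : w * uu n ≠ 0) (h : 2 * (w * uu n) ≤ n) :
    (qq n w).Prime ∧ w * uu n < qq n w ∧ qq n w ≤ 2 * (w * uu n) := by
  obtain ⟨p, hp, h1, h2⟩ := Nat.exists_prime_lt_and_le_two_mul (w * uu n) h0
  obtain ⟨e1, e2, -⟩ := findIdx_range (p := fun b => decide (w * uu n < b) && isP n b)
    (N := n + 1) (j := p) (by omega) (by simp [h1, isP_iff (h2.trans h), hp])
  change qq n w ≤ p at e1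
  change (decide (w * uu n < qq n w) && isP n (qq n w)) = true at e2
  rw [Bool.and_eq_true, decide_eq_true_eq, isP_iff (by omega)] at e2
  exact ⟨e2.2, e2.1, e1.trans h2⟩

theorem hB_eq {n w : ℕ} (h : 2 * w ≤ n) (Y i : ℕ) : hB n w Y i = hv (qq n w) (2 * w) Y i := by
  unfold hB hv
  rw [min_eq_left h, List.map_congr_left (g := fun j =>
    Y / qq n w ^ j % qq n w * i ^ j) fun j hj => ?_]
  rw [min_eq_left (by have := List.mem_range.mp hj; omega)]

theorem uu_spec {n : ℕ} (hn : 1 ≤ n) : uu n * uu n ≤ 2 * n ∧ n ≤ 2 * (uu n * uu n) := by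
  have h1 := size_le_self n
  have h2 : n < 2 ^ Nat.size n := Nat.lt_size_self n
  have h3 : 1 ≤ Nat.size n := Nat.size_pos.mpr hn
  have h4 : 2 ^ (Nat.size n - 1) ≤ n := Nat.lt_size.mp (by omega)
  unfold uu
  rw [min_eq_left (by omega), ← pow_add]
  constructor
  · calc _ ≤ 2 ^ (Nat.size n - 1 + 1) := Nat.pow_le_pow_right (by norm_num) (by omega)
      _ ≤ _ := by rw [pow_succ]; omega
  · calc n ≤ 2 ^ Nat.size n := h2.le
      _ ≤ 2 ^ (Nat.size n / 2 + Nat.size n / 2 + 1) := Nat.pow_le_pow_right (by norm_num) (by omega)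
      _ = _ := by rw [pow_succ]; omega

end Pool.Agent.Lib.MP_79d702_lc.Avg
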